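import Pool.Agent.K7.H87.FJ6.Lek
import Pool.Agent.Y462.SS.Base

/-!
# The cocycle with values in a standard parabolic subgroup
-/

set_option autoImplicit false
set_option linter.unusedSectionVars false
set_option linter.unusedSimpArgs false

namespace Run7.h952.AR

open Pool.Agent.Helper741 CoxeterSystem Pool.Agent.K7.H87.FJ6

variable {A B : Type} [Fintype B] [DecidableEq B] {M : CoxeterMatrix B}
variable {W : Type} [Group W] (cs : CoxeterSystem M W) {po : B → ℕ} (ho : Adm M po) (ι : A → B)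
  (hι : Function.Injective ι)

theorem perm_inv {X : Type} (f : Equiv.Perm X) (x : X) : f (f⁻¹ x) = x := Equiv.apply_symm_apply f x

/-- the map to the Coxeter group -/
def prj : Sh M po →* W :=
  Sh.lift (fun x => cs.simple x) (fun _ _ =>
    alt_comm_of_pow (cs.simple_mul_simple_self _) (cs.simple_mul_simple_self _)
      (cs.simple_mul_simple_pow _ _)) (fun i => by
    obtain ⟨k, hk⟩ := ho.even i
    rw [hk, ← two_mul, pow_mul, cs.simple_sq, one_pow])

theorem prj_gen (x : B) : prj cs ho (Sh.gen _ _ x) = cs.simple x := Sh.lift_gen _ _ _ _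

theorem prj_inc (a : Sh (pull M ι hι) (po ∘ ι)) :
    prj cs ho (inc M po ι hι a) = bar cs ho ι hι a := by
  have h : (prj cs ho).comp (inc M po ι hι) = bar cs ho ι hι := by
    apply Sh.hom_ext
    intro i
    rw [MonoidHom.comp_apply, inc_gen, prj_gen, bar_gen]
  exact DFunLike.congr_fun h a

theorem prj_surjective : Function.Surjective (prj cs ho) := by
  rw [← MonoidHom.range_eq_top, ← top_le_iff, ← cs.subgroup_closure_range_simple,
    Subgroup.closure_le]
  rintro _ ⟨i, rfl⟩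
  exact ⟨Sh.gen _ _ i, prj_gen cs ho i⟩

/-- the standard parabolic subgroup of the Coxeter group -/
def PX : Subgroup W := (bar cs ho ι hι).range

theorem stp_right (b : B) (a a' : Sh (pull M ι hι) (po ∘ ι)) (v : {v : W // Mn cs ι v}) :
    stp cs ι hι b (a * a', v) = ((stp cs ι hι b (a, v)).1 * a', (stp cs ι hι b (a, v)).2) := by
  by_cases h : ∃ x, cs.simple b * v.1 = v.1 * cs.simple (ι x)
  · obtain ⟨x, hx⟩ := h
    rw [stp_pos (ω := (a * a', v)) hx, stp_pos (ω := (a, v)) hx, mul_assoc]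
  · rw [stp_neg (ω := (a * a', v)) h, stp_neg (ω := (a, v)) h]

theorem act_gen (b : B) (ω : Om cs ι hι po) :
    act cs ho ι hι (Sh.gen M po b) ω = stp cs ι hι b ω := by
  rw [act, Sh.lift_gen, prm_apply]

theorem act_right (g : Sh M po) : ∀ (a a' : Sh (pull M ι hι) (po ∘ ι))
    (v : {v : W // Mn cs ι v}), act cs ho ι hι g (a * a', v) =
      ((act cs ho ι hι g (a, v)).1 * a', (act cs ho ι hι g (a, v)).2) := by
  induction g using Sh.induction with
  | one => intro a a' v; rw [map_one]; rfl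
  | gen b =>
    intro a a' v
    rw [act_gen, act_gen, stp_right]
  | mul x y hx hy =>
    intro a a' v
    rw [map_mul, Equiv.Perm.mul_apply, Equiv.Perm.mul_apply, hy, hx]
  | inv x hx =>
    intro a a' v
    rw [map_inv, Equiv.Perm.inv_eq_iff_eq, hx]
    show (a * a', v) = ((act cs ho ι hι x (((act cs ho ι hι x)⁻¹) (a, v))).1 * a',
      (act cs ho ι hι x (((act cs ho ι hι x)⁻¹) (a, v))).2)
    rw [perm_inv]

/-- the cocycle -/
noncomputable def cy (g : Sh M po) (v : {v : W // Mn cs ι v}) : Sh (pull M ι hι) (po ∘ ι) :=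
  (act cs ho ι hι g (1, v)).1

/-- the action on the minimal representatives of the cosets -/
noncomputable def mv (g : Sh M po) (v : {v : W // Mn cs ι v}) : {v : W // Mn cs ι v} :=
  (act cs ho ι hι g (1, v)).2

theorem act_eq (g : Sh M po) (a : Sh (pull M ι hι) (po ∘ ι)) (v : {v : W // Mn cs ι v}) :
    act cs ho ι hι g (a, v) = (cy cs ho ι hι g v * a, mv cs ho ι hι g v) := by
  have h := act_right cs ho ι hι g 1 a v
  rw [one_mul] at h
  exact h

theorem cy_mul (g h : Sh M po) (v : {v : W // Mn cs ι v}) :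
    cy cs ho ι hι (g * h) v = cy cs ho ι hι g (mv cs ho ι hι h v) * cy cs ho ι hι h v := by
  show (act cs ho ι hι (g * h) (1, v)).1 = _
  rw [map_mul, Equiv.Perm.mul_apply, act_eq cs ho ι hι h, act_eq cs ho ι hι g, mul_one]

theorem mv_mul (g h : Sh M po) (v : {v : W // Mn cs ι v}) :
    mv cs ho ι hι (g * h) v = mv cs ho ι hι g (mv cs ho ι hι h v) := by
  show (act cs ho ι hι (g * h) (1, v)).2 = _
  rw [map_mul, Equiv.Perm.mul_apply, act_eq cs ho ι hι h, act_eq cs ho ι hι g]

theorem cy_one (v : {v : W // Mn cs ι v}) : cy cs ho ι hι 1 v = 1 := by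
  show (act cs ho ι hι 1 (1, v)).1 = _
  rw [map_one]
  rfl

theorem mv_one (v : {v : W // Mn cs ι v}) : mv cs ho ι hι 1 v = v := by
  show (act cs ho ι hι 1 (1, v)).2 = _
  rw [map_one]
  rfl

theorem cy_inc (a : Sh (pull M ι hι) (po ∘ ι)) :
    cy cs ho ι hι (inc M po ι hι a) ⟨1, Mn_one cs ι⟩ = a := by
  show (act cs ho ι hι (inc M po ι hι a) (1, ⟨1, Mn_one cs ι⟩)).1 = _
  rw [act_inc, mul_one]

theorem tot_act (g : Sh M po) : ∀ ω : Om cs ι hι po, tot cs ho ι hι (act cs ho ι hι g ω) =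
    prj cs ho g * tot cs ho ι hι ω := by
  induction g using Sh.induction with
  | one => intro ω; rw [map_one, map_one, one_mul]; rfl
  | gen b => intro ω; rw [act_gen, tot_stp, prj_gen]
  | mul x y hx hy => intro ω; rw [map_mul, Equiv.Perm.mul_apply, hx, hy, map_mul, mul_assoc]
  | inv x hx =>
    intro ω
    have h := hx ((act cs ho ι hι x)⁻¹ ω)
    rw [perm_inv] at h
    rw [map_inv, map_inv, h, inv_mul_cancel_left]

theorem mv_bar (g : Sh M po) (v : {v : W // Mn cs ι v}) :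
    (mv cs ho ι hι g v).1 * bar cs ho ι hι (cy cs ho ι hι g v) = prj cs ho g * v.1 := by
  have h := tot_act cs ho ι hι g (1, v)
  have h2 : tot cs ho ι hι ((1, v) : Om cs ι hι po) = v.1 := by
    show v.1 * bar cs ho ι hι 1 = v.1
    rw [map_one, mul_one]
  rw [h2] at h
  exact h

/-- minimal representatives are unique -/
theorem Mn_unique {v v' : W} (hv : Mn cs ι v) (hv' : Mn cs ι v')
    (a : Sh (pull M ι hι) (po ∘ ι)) (h : v' = v * bar cs ho ι hι a) : v = v' := by
  suffices h1 : bar cs ho ι hι a = 1 by rw [h, h1, mul_one]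
  apply eq_one_of_geo cs
  intro i
  rcases sgn cs (bar cs ho ι hι a) i with h1 | h1
  · exact h1
  · exfalso
    by_cases hi : ∃ x, ι x = i
    · obtain ⟨x, rfl⟩ := hi
      have h2 : geo cs v' (ee (ι x)) ≤ 0 := by
        rw [h, geo_mul_apply]
        intro e
        rw [geo_sum]
        refine Finset.sum_nonpos fun d _ => ?_
        by_cases hd : ∃ y, ι y = d
        · obtain ⟨y, rfl⟩ := hd
          exact mul_nonpos_of_nonpos_of_nonneg (h1 _) (hv y e)
        · push Not at hd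
          rw [coord cs ho ι hι a _ d hd]
          have : ee (ι x) d = (0 : ℝ) := by
            simp [ee, Pi.single_apply, (hd x).symm]
          rw [this, zero_mul]
      exact geo_ee_ne_zero cs v' (ι x) (le_antisymm h2 (hv' x))
    · push Not at hi
      have h2 := h1 i
      rw [coord cs ho ι hι a _ i hi] at h2
      have : ee i i = (1 : ℝ) := by simp [ee]
      rw [this] at h2
      norm_num at h2

theorem mv_eq {g : Sh M po} {v v' : {v : W // Mn cs ι v}}
    (a : Sh (pull M ι hι) (po ∘ ι)) (h : prj cs ho g * v.1 = v'.1 * bar cs ho ι hι a) :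
    mv cs ho ι hι g v = v' := by
  apply Subtype.ext
  refine Mn_unique cs ho ι hι (mv cs ho ι hι g v).2 v'.2 (cy cs ho ι hι g v * a⁻¹) ?_
  rw [map_mul, map_inv, ← mul_assoc, mv_bar, h, mul_inv_cancel_right]

/-- each element is a minimal one times an element of the parabolic subgroup -/
theorem ex_min (u : W) : ∃ (v : W) (a : Sh (pull M ι hι) (po ∘ ι)), Mn cs ι v ∧
    u = v * bar cs ho ι hι a := by
  obtain ⟨g, hg⟩ := prj_surjective cs ho u
  have h := mv_bar cs ho ι hι g ⟨1, Mn_one cs ι⟩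
  rw [hg, mul_one] at h
  exact ⟨_, _, (mv cs ho ι hι g ⟨1, Mn_one cs ι⟩).2, h.symm⟩

/-- contributions -/
theorem out_iff' (g : Sh M po) (v : {v : W // Mn cs ι v}) (b : B) :
    (∃ x, cs.simple b * (mv cs ho ι hι g v).1 = (mv cs ho ι hι g v).1 * cs.simple (ι x)) ↔
      ∀ d, (∀ x, ι x ≠ d) → geo cs v.1⁻¹ (geo cs (prj cs ho g)⁻¹ (ee b)) d = 0 := by
  have h := out_iff (ho := ho) (act cs ho ι hι g (1, v)) b
  have h1 : (act cs ho ι hι g (1, v)).2 = mv cs ho ι hι g v := rfl
  rw [h1] at h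
  rw [h, On, tot_act]
  have h2 : tot cs ho ι hι ((1, v) : Om cs ι hι po) = v.1 := by
    show v.1 * bar cs ho ι hι 1 = v.1
    rw [map_one, mul_one]
  rw [h2, _root_.mul_inv_rev]
  simp only [geo_mul_apply]

/-- the values at the generators -/
theorem gen_pos {b : B} {v : {v : W // Mn cs ι v}} {x : A}
    (h : cs.simple b * v.1 = v.1 * cs.simple (ι x)) :
    cy cs ho ι hι (Sh.gen M po b) v = Sh.gen _ _ x ∧ mv cs ho ι hι (Sh.gen M po b) v = v := by
  have h1 := stp_pos (cs := cs) (hι := hι) (po := po) (ω := (1, v)) h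
  constructor
  · show (act cs ho ι hι (Sh.gen M po b) (1, v)).1 = _
    rw [act_gen, h1, mul_one]
  · show (act cs ho ι hι (Sh.gen M po b) (1, v)).2 = _
    rw [act_gen, h1]

theorem gen_neg {b : B} {v : {v : W // Mn cs ι v}}
    (h : ¬ ∃ x, cs.simple b * v.1 = v.1 * cs.simple (ι x)) :
    cy cs ho ι hι (Sh.gen M po b) v = 1 ∧
      (mv cs ho ι hι (Sh.gen M po b) v).1 = cs.simple b * v.1 := by
  have h1 := stp_neg (cs := cs) (hι := hι) (po := po) (ω := (1, v)) h
  constructor
  · show (act cs ho ι hι (Sh.gen M po b) (1, v)).1 = _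
    rw [act_gen, h1]
  · show (act cs ho ι hι (Sh.gen M po b) (1, v)).2.1 = _
    rw [act_gen, h1]

theorem inv_pos {b : B} {v : {v : W // Mn cs ι v}} {x : A}
    (h : cs.simple b * v.1 = v.1 * cs.simple (ι x)) :
    cy cs ho ι hι (Sh.gen M po b)⁻¹ v = (Sh.gen _ _ x)⁻¹ ∧
      mv cs ho ι hι (Sh.gen M po b)⁻¹ v = v := by
  obtain ⟨h1, h2⟩ := gen_pos cs ho ι hι h
  have h3 : mv cs ho ι hι (Sh.gen M po b)⁻¹ v = v := by
    have h4 := mv_mul cs ho ι hι (Sh.gen M po b)⁻¹ (Sh.gen M po b) v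
    rw [inv_mul_cancel, mv_one, h2] at h4
    exact h4.symm
  refine ⟨?_, h3⟩
  have h4 := cy_mul cs ho ι hι (Sh.gen M po b)⁻¹ (Sh.gen M po b) v
  rw [inv_mul_cancel, cy_one, h2, h1] at h4
  exact eq_inv_of_mul_eq_one_left h4.symm

theorem inv_neg {b : B} {v : {v : W // Mn cs ι v}}
    (h : ¬ ∃ x, cs.simple b * v.1 = v.1 * cs.simple (ι x)) :
    cy cs ho ι hι (Sh.gen M po b)⁻¹ v = 1 ∧
      (mv cs ho ι hι (Sh.gen M po b)⁻¹ v).1 = cs.simple b * v.1 := by
  obtain ⟨v', hv'⟩ : ∃ v' : {v : W // Mn cs ι v}, v' = ⟨cs.simple b * v.1, Mn_move cs ι v.2 h⟩ :=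
    ⟨_, rfl⟩
  have hv1 : v'.1 = cs.simple b * v.1 := by rw [hv']
  have hne : ¬ ∃ x, cs.simple b * v'.1 = v'.1 * cs.simple (ι x) := by
    rintro ⟨x, hx⟩
    apply h
    refine ⟨x, ?_⟩
    rw [hv1] at hx
    have hb := cs.simple_mul_simple_self b
    have hx' := cs.simple_mul_simple_self (ι x)
    rw [← mul_assoc, hb, one_mul] at hx
    calc cs.simple b * v.1 = cs.simple b * v.1 * (cs.simple (ι x) * cs.simple (ι x)) := by
          rw [hx', mul_one]
      _ = (cs.simple b * v.1 * cs.simple (ι x)) * cs.simple (ι x) := by group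
      _ = v.1 * cs.simple (ι x) := by rw [← hx]
  obtain ⟨h1, h2⟩ := gen_neg cs ho ι hι hne
  have h3 : mv cs ho ι hι (Sh.gen M po b) v' = v := by
    apply Subtype.ext
    rw [h2, hv1, ← mul_assoc, cs.simple_mul_simple_self, one_mul]
  have h4 : mv cs ho ι hι (Sh.gen M po b)⁻¹ v = v' := by
    have h5 := mv_mul cs ho ι hι (Sh.gen M po b)⁻¹ (Sh.gen M po b) v'
    rw [inv_mul_cancel, mv_one, h3] at h5
    exact h5.symm
  refine ⟨?_, by rw [h4, hv1]⟩
  have h5 := cy_mul cs ho ι hι (Sh.gen M po b)⁻¹ (Sh.gen M po b) v'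
  rw [inv_mul_cancel, cy_one, h3, h1, mul_one] at h5
  exact h5.symm

end Run7.h952.AR
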