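import Pool.Agent.R941.FJ.Rdp

/-!
# Homomorphisms to unrestricted wreath products with the integers
-/

set_option autoImplicit false

namespace Run7.h952.AR

open Pool.Agent.Y110.FJ Pool.Agent.R941.FJ
open Pool.Agent.Y462.SS (Closed Wr)

variable {C : ∀ (G : Type) [Group G], Prop}

/-- cyclic groups -/
theorem C_zpowers (hC : Closed C) {G : Type} [Group G] (x : G) : C (Subgroup.zpowers x) := by
  by_cases hx : IsOfFinOrder x
  · have : Finite (Subgroup.zpowers x) := Set.Finite.to_subtype (finite_zpowers.2 hx)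
    exact Pool.Agent.Y430.SS.of_finite hC _ inferInstance
  · have hinj : Function.Injective (zpowersHom G x) := by
      intro a b hab
      rw [zpowersHom_apply, zpowersHom_apply] at hab
      exact Multiplicative.toAdd.injective (injective_zpow_iff_not_isOfFinOrder.2 hx hab)
    have e : Multiplicative ℤ ≃* (zpowersHom G x).range := MonoidHom.ofInjective hinj
    have h1 : Subgroup.zpowers x ≤ (zpowersHom G x).range := by
      rw [Subgroup.zpowers_le]
      exact ⟨Multiplicative.ofAdd 1, by simp⟩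
    refine hC.of_injective _ _ (e.symm.toMonoidHom.comp (Subgroup.inclusion h1)) ?_ hC.int
    exact e.symm.injective.comp (Subgroup.inclusion_injective h1)

section

variable {Γ A A' : Type} [Group Γ] [Group A] [Group A'] (f : Γ →* Wr ℤ A) (F : Γ →* A')
  (j : Γ →* Multiplicative ℤ)

/-- elements which agree with the image of an element of `Γ` up to finitely many coordinates -/
def QC : Subgroup (Wr ℤ A × (A' × Multiplicative ℤ)) where
  carrier := {q | ∃ γ : Γ, q.2 = (F γ, j γ) ∧ q.1.p = (f γ).p ∧ {n | q.1.s n ≠ (f γ).s n}.Finite}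
  one_mem' := ⟨1, by rw [map_one, map_one]; rfl, by rw [map_one]; rfl, by
    rw [map_one]
    simp⟩
  mul_mem' := by
    rintro q q' ⟨γ, h1, h2, h3⟩ ⟨γ', h1', h2', h3'⟩
    refine ⟨γ * γ', ?_, ?_, ?_⟩
    · rw [map_mul, map_mul, Prod.snd_mul, h1, h1']
      rfl
    · rw [map_mul, Prod.fst_mul, Wr.mul_p, Wr.mul_p, h2, h2']
    · refine ((h3.preimage (f := q'.1.p) (fun a _ b _ h => q'.1.p.injective h)).union h3').subset ?_
      intro n hn
      by_contra hcon
      rw [Set.mem_union, not_or] at hcon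
      apply hn
      have h4 : q.1.s (q'.1.p n) = (f γ).s (q'.1.p n) := by
        by_contra h5
        exact hcon.1 h5
      have h5 : q'.1.s n = (f γ').s n := by
        by_contra h6
        exact hcon.2 h6
      rw [map_mul, Prod.fst_mul, Wr.mul_s, Wr.mul_s, h4, h5, h2']
  inv_mem' := by
    rintro q ⟨γ, h1, h2, h3⟩
    refine ⟨γ⁻¹, ?_, ?_, ?_⟩
    · rw [map_inv, map_inv, Prod.snd_inv, h1]
      rfl
    · rw [map_inv, Prod.fst_inv, Wr.inv_p, Wr.inv_p, h2]
    · refine (h3.preimage (f := ⇑(q.1.p⁻¹)) (fun a _ b _ h => (q.1.p⁻¹).injective h)).subset ?_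
      intro n hn h4
      apply hn
      rw [map_inv, Prod.fst_inv, Wr.inv_s, Wr.inv_s, ← h2]
      exact congrArg _ h4

/-- the action on the integers -/
instance qact : MulAction (QC f F j) ℤ where
  smul q n := (q : Wr ℤ A × (A' × Multiplicative ℤ)).1.p n
  one_smul _ := rfl
  mul_smul _ _ _ := rfl

theorem smul_eq (q : QC f F j) (n : ℤ) : q • n = (q : Wr ℤ A × (A' × Multiplicative ℤ)).1.p n := rfl

/-- the kernel -/
def QN : Subgroup (QC f F j) := ((MonoidHom.snd _ _).comp (QC f F j).subtype).ker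

instance : (QN f F j).Normal := by unfold QN; infer_instance

variable (hp : ∀ γ n, (f γ).p n = n + (j γ).toAdd)
  (hfin : ∀ γ, j γ = 1 → F γ = 1 → {n | (f γ).s n ≠ 1}.Finite)

theorem mem_QN {q : QC f F j} : q ∈ QN f F j ↔
    (q : Wr ℤ A × (A' × Multiplicative ℤ)).2 = 1 := Iff.rfl

include hp in
theorem p_of_mem {q : QC f F j} (h : q ∈ QN f F j) :
    (q : Wr ℤ A × (A' × Multiplicative ℤ)).1.p = 1 := by
  obtain ⟨γ, h1, h2, -⟩ := q.2
  rw [mem_QN] at h
  rw [h1] at h
  have h3 : j γ = 1 := congrArg Prod.snd h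
  rw [h2]
  ext n
  rw [hp, h3]
  simp

include hfin in
theorem fin_of_mem {q : QC f F j} (h : q ∈ QN f F j) :
    {n | (q : Wr ℤ A × (A' × Multiplicative ℤ)).1.s n ≠ 1}.Finite := by
  obtain ⟨γ, h1, -, h3⟩ := q.2
  rw [mem_QN] at h
  rw [h1] at h
  have h4 : j γ = 1 := congrArg Prod.snd h
  have h5 : F γ = 1 := congrArg Prod.fst h
  refine (h3.union (hfin γ h4 h5)).subset ?_
  intro n hn
  by_contra hcon
  rw [Set.mem_union, not_or] at hcon
  have h6 : (q : Wr ℤ A × (A' × Multiplicative ℤ)).1.s n = (f γ).s n := by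
    by_contra h7
    exact hcon.1 h7
  have h7 : (f γ).s n = 1 := by
    by_contra h8
    exact hcon.2 h8
  exact hn (h6.trans h7)

/-- the coordinate subgroups -/
def QK (i : ℤ) : Subgroup (QC f F j) where
  carrier := {q | q ∈ QN f F j ∧ (q : Wr ℤ A × (A' × Multiplicative ℤ)).1.p = 1 ∧
    ∀ n, n ≠ i → (q : Wr ℤ A × (A' × Multiplicative ℤ)).1.s n = 1}
  one_mem' := ⟨one_mem _, rfl, fun _ _ => rfl⟩
  mul_mem' := by
    rintro a b ⟨h1, h2, h3⟩ ⟨h1', h2', h3'⟩
    refine ⟨mul_mem h1 h1', ?_, fun n hn => ?_⟩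
    · show a.1.1.p * b.1.1.p = 1
      rw [h2, h2', one_mul]
    · show a.1.1.s (b.1.1.p n) * b.1.1.s n = 1
      rw [h2', Equiv.Perm.one_apply, h3 n hn, h3' n hn, one_mul]
  inv_mem' := by
    rintro a ⟨h1, h2, h3⟩
    refine ⟨inv_mem h1, ?_, fun n hn => ?_⟩
    · show (a.1.1.p)⁻¹ = 1
      rw [h2, inv_one]
    · show (a.1.1.s ((a.1.1.p)⁻¹ n))⁻¹ = 1
      rw [h2, inv_one, Equiv.Perm.one_apply, h3 n hn, inv_one]

/-- the coordinate -/
theorem ex_single (i : ℤ) (a : A) : ∃ q ∈ QK f F j i,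
    (q : Wr ℤ A × (A' × Multiplicative ℤ)).1.s i = a := by
  classical
  refine ⟨⟨(⟨fun n => if n = i then a else 1, 1⟩, 1), ⟨1, ?_, ?_, ?_⟩⟩, ⟨rfl, rfl, ?_⟩, ?_⟩
  · rw [map_one, map_one]
    rfl
  · rw [map_one]
    rfl
  · rw [map_one]
    apply (Set.finite_singleton i).subset
    intro n hn
    by_contra hcon
    exact hn (if_neg hcon)
  · intro n hn
    exact if_neg hn
  · exact if_pos rfl

include hp hfin in
theorem rdpQ : IsRdp (QN f F j) (QK f F j) where
  sup := by
    apply le_antisymm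
    · exact iSup_le fun i q hq => hq.1
    · intro q hq
      obtain ⟨S, hS⟩ : ∃ S : Finset ℤ, S = (fin_of_mem f F j hfin hq).toFinset := ⟨_, rfl⟩
      have hS' : ∀ n, n ∉ S → (q : Wr ℤ A × (A' × Multiplicative ℤ)).1.s n = 1 := by
        intro n hn
        by_contra hcon
        apply hn
        rw [hS, Set.Finite.mem_toFinset]
        exact hcon
      clear hS
      induction S using Finset.induction_on generalizing q with
      | empty =>
        have h1 : q = 1 := by
          apply Subtype.ext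
          refine Prod.ext (Wr.ext ?_ (p_of_mem f F j hp hq)) hq
          funext n
          exact hS' n (Finset.notMem_empty n)
        rw [h1]
        exact one_mem _
      | insert a S ha ih =>
        obtain ⟨k, hk, hka⟩ := ex_single f F j a ((q : Wr ℤ A × (A' × Multiplicative ℤ)).1.s a)
        have h1 : k⁻¹ * q ∈ ⨆ i, QK f F j i := by
          have hkq : k⁻¹ * q ∈ QN f F j := mul_mem (inv_mem hk.1) hq
          refine ih hkq fun n hn => ?_
          show (k.1.1.s ((k.1.1.p)⁻¹ (q.1.1.p n)))⁻¹ * q.1.1.s n = 1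
          rw [p_of_mem f F j hp hq, hk.2.1, inv_one, Equiv.Perm.one_apply, Equiv.Perm.one_apply]
          by_cases hna : n = a
          · rw [hna, hka, inv_mul_cancel]
          · rw [hk.2.2 n hna, inv_one, one_mul]
            apply hS'
            rw [Finset.mem_insert, not_or]
            exact ⟨hna, hn⟩
        have h2 : q = k * (k⁻¹ * q) := by group
        rw [h2]
        exact mul_mem (Subgroup.mem_iSup_of_mem a hk) h1
  comm := by
    intro i i' hii x hx y hy
    apply Subtype.ext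
    refine Prod.ext (Wr.ext ?_ ?_) ?_
    · funext n
      show x.1.1.s (y.1.1.p n) * y.1.1.s n = y.1.1.s (x.1.1.p n) * x.1.1.s n
      rw [hx.2.1, hy.2.1, Equiv.Perm.one_apply]
      by_cases hn : n = i
      · have h1 : n ≠ i' := fun h => hii (hn.symm.trans h)
        rw [hy.2.2 n h1, mul_one, one_mul]
      · rw [hx.2.2 n hn, mul_one, one_mul]
    · show x.1.1.p * y.1.1.p = y.1.1.p * x.1.1.p
      rw [hx.2.1, hy.2.1]
    · show x.1.2 * y.1.2 = y.1.2 * x.1.2
      have h1 : x.1.2 = 1 := hx.1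
      have h2 : y.1.2 = 1 := hy.1
      rw [h1, h2]
  indep := by
    intro i
    rw [eq_bot_iff]
    intro q hq
    obtain ⟨h1, h2⟩ := Subgroup.mem_inf.1 hq
    let R : Subgroup (QC f F j) :=
      { carrier := {q | (q : Wr ℤ A × (A' × Multiplicative ℤ)).1.p = 1 ∧
          (q : Wr ℤ A × (A' × Multiplicative ℤ)).1.s i = 1}
        one_mem' := ⟨rfl, rfl⟩
        mul_mem' := by
          rintro a b ⟨h1, h2⟩ ⟨h1', h2'⟩
          refine ⟨?_, ?_⟩
          · show a.1.1.p * b.1.1.p = 1
            rw [h1, h1', one_mul]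
          · show a.1.1.s (b.1.1.p i) * b.1.1.s i = 1
            rw [h1', Equiv.Perm.one_apply, h2, h2', one_mul]
        inv_mem' := by
          rintro a ⟨h1, h2⟩
          refine ⟨?_, ?_⟩
          · show (a.1.1.p)⁻¹ = 1
            rw [h1, inv_one]
          · show (a.1.1.s ((a.1.1.p)⁻¹ i))⁻¹ = 1
            rw [h1, inv_one, Equiv.Perm.one_apply, h2, inv_one] }
    have h3 : (⨆ j', ⨆ _ : j' ≠ i, QK f F j j') ≤ R := by
      refine iSup₂_le fun j' hj' x hx => ⟨hx.2.1, hx.2.2 i fun h => hj' h.symm⟩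
    have h4 := h3 h2
    rw [Subgroup.mem_bot]
    apply Subtype.ext
    refine Prod.ext (Wr.ext ?_ h1.2.1) h1.1
    funext n
    by_cases hn : n = i
    · rw [hn]
      exact h4.2
    · exact h1.2.2 n hn
  conj := by
    intro g i x hx
    refine ⟨(inferInstance : (QN f F j).Normal).conj_mem x hx.1 g, ?_, fun n hn => ?_⟩
    · show g.1.1.p * x.1.1.p * (g.1.1.p)⁻¹ = 1
      rw [hx.2.1, mul_one, mul_inv_cancel]
    · show g.1.1.s (x.1.1.p ((g.1.1.p)⁻¹ n)) * x.1.1.s ((g.1.1.p)⁻¹ n) *
        (g.1.1.s ((g.1.1.p)⁻¹ n))⁻¹ = 1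
      have h1 : (g.1.1.p)⁻¹ n ≠ i := by
        intro h
        apply hn
        rw [smul_eq, ← h]
        exact (Equiv.apply_symm_apply g.1.1.p n).symm
      rw [hx.2.1, Equiv.Perm.one_apply, hx.2.2 _ h1, mul_one, mul_inv_cancel]

include hp in
/-- stabilizers -/
theorem stabQ (hC : Closed C) (hA : C A) (i : ℤ) (g : QC f F j) (hg : g • i = i) :
    C ↥(QK f F j i ⊔ Subgroup.zpowers g) := by
  have hpg : g.1.1.p = 1 := by
    obtain ⟨γ, -, h2, -⟩ := g.2
    have h3 : (f γ).p i = i := by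
      rw [← h2]
      exact hg
    rw [hp] at h3
    have h4 : (j γ).toAdd = 0 := by omega
    rw [h2]
    ext n
    rw [hp, h4]
    simp
  -- the elements which do not move
  let R : Subgroup (QC f F j) :=
    { carrier := {q | q.1.1.p = 1}
      one_mem' := rfl
      mul_mem' := by
        rintro a b h1 h2
        show a.1.1.p * b.1.1.p = 1
        have h1' : a.1.1.p = 1 := h1
        have h2' : b.1.1.p = 1 := h2
        rw [h1', h2', one_mul]
      inv_mem' := by
        rintro a h1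
        show (a.1.1.p)⁻¹ = 1
        have h1' : a.1.1.p = 1 := h1
        rw [h1', inv_one] }
  have hR : ∀ q : R, q.1.1.1.p = 1 := fun q => q.2
  let c1 : R →* A :=
    { toFun := fun q => q.1.1.1.s i
      map_one' := rfl
      map_mul' := fun a b => by
        show a.1.1.1.s (b.1.1.1.p i) * b.1.1.1.s i = _
        rw [hR b, Equiv.Perm.one_apply] }
  let c2 : R →* ({n : ℤ // n ≠ i} → A) × (A' × Multiplicative ℤ) :=
    { toFun := fun q => (fun n => q.1.1.1.s n, q.1.1.2)
      map_one' := rfl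
      map_mul' := fun a b => by
        refine Prod.ext ?_ rfl
        funext n
        show a.1.1.1.s (b.1.1.1.p n) * b.1.1.1.s n = _
        rw [hR b, Equiv.Perm.one_apply]
        rfl }
  have hle : QK f F j i ⊔ Subgroup.zpowers g ≤ R := by
    refine sup_le (fun q hq => hq.2.1) ?_
    rw [Subgroup.zpowers_le]
    exact hpg
  obtain ⟨d, hd⟩ : ∃ d, d = c2 ⟨g, hpg⟩ := ⟨_, rfl⟩
  have hc2 : ∀ q : ↥(QK f F j i ⊔ Subgroup.zpowers g), c2 ⟨q.1, hle q.2⟩ ∈ Subgroup.zpowers d := by
    intro q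
    have h1 : QK f F j i ⊔ Subgroup.zpowers g ≤ ((Subgroup.zpowers d).comap c2).map R.subtype := by
      refine sup_le (fun q hq => ?_) ?_
      · refine ⟨⟨q, hq.2.1⟩, ?_, rfl⟩
        show c2 ⟨q, hq.2.1⟩ ∈ Subgroup.zpowers d
        have h2 : c2 ⟨q, hq.2.1⟩ = 1 := by
          refine Prod.ext ?_ hq.1
          funext n
          exact hq.2.2 n n.2
        rw [h2]
        exact one_mem _
      · rw [Subgroup.zpowers_le]
        refine ⟨⟨g, hpg⟩, ?_, rfl⟩
        show c2 ⟨g, hpg⟩ ∈ Subgroup.zpowers d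
        rw [hd]
        exact Subgroup.mem_zpowers _
    obtain ⟨r, hr, hrq⟩ := h1 q.2
    have h2 : r = ⟨q.1, hle q.2⟩ := Subtype.ext hrq
    rw [← h2]
    exact hr
  let φ : ↥(QK f F j i ⊔ Subgroup.zpowers g) →* A × Subgroup.zpowers d :=
    (c1.comp (Subgroup.inclusion hle)).prod
      ((c2.comp (Subgroup.inclusion hle)).codRestrict (Subgroup.zpowers d) hc2)
  refine hC.of_injective _ _ φ ?_ (hC.prod _ _ hA (C_zpowers hC d))
  rw [injective_iff_map_eq_one]
  intro q hq
  have h1 : c1 ⟨q.1, hle q.2⟩ = 1 := congrArg Prod.fst hq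
  have h2 : c2 ⟨q.1, hle q.2⟩ = 1 := congrArg (fun x => (x.2 : _)) hq |> fun h => by
    have h3 := congrArg Subtype.val h
    exact h3
  apply Subtype.ext
  apply Subtype.ext
  have h5 : q.1.1.2 = 1 := congrArg Prod.snd h2
  refine Prod.ext (Wr.ext ?_ (hR ⟨q.1, hle q.2⟩)) h5
  funext n
  by_cases hn : n = i
  · rw [hn]
    exact h1
  · exact congrFun (congrArg Prod.fst h2) ⟨n, hn⟩

include hp hfin in
/-- the group `QC` is in the class -/
theorem cofinite (hC : ClosedE C) (hA : C A) (hA' : C A') : C (QC f F j) := by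
  refine rdp (N := QN f F j) (K := QK f F j) hC (rdpQ f F j hp hfin)
    (fun i g hg => stabQ f F j hp hC.base hA i g hg) ?_
  have h1 : C (A' × Multiplicative ℤ) := hC.base.prod _ _ hA' hC.base.int
  exact hC.base.of_injective _ _ (QuotientGroup.kerLift ((MonoidHom.snd _ _).comp (QC f F j).subtype))
    (QuotientGroup.kerLift_injective _) h1

/-- the homomorphism to `QC` -/
def toQC : Γ →* QC f F j :=
  (f.prod (F.prod j)).codRestrict (QC f F j) (fun γ => ⟨γ, rfl, rfl, by simp⟩)

theorem toQC_one {γ : Γ} (h : toQC f F j γ = 1) : f γ = 1 :=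
  congrArg Prod.fst (congrArg Subtype.val h)

end

end Run7.h952.AR
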