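import Pool.Agent.Run7.h952.AR.Coc

/-!
# Intersections of the translates of a parabolic subset of the root system
-/

set_option autoImplicit false
set_option linter.unusedSectionVars false
set_option linter.unusedSimpArgs false

namespace Run7.h952.AR

open Pool.Agent.Helper741 CoxeterSystem Pool.Agent.K7.H87.FJ6

variable {B : Type} [Fintype B] [DecidableEq B] {M : CoxeterMatrix B}
variable {W : Type} [Group W] (cs : CoxeterSystem M W) {po : B → ℕ} (ho : Adm M po)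

/-- the vector lies in the coordinate subspace -/
def Vs (Y : Finset B) (z : B → ℝ) : Prop := ∀ d, d ∉ Y → z d = 0

/-- the inclusion of a set of generators -/
abbrev io (Y : Finset B) : Y → B := Subtype.val

theorem io_ne {Y : Finset B} {d : B} (h : d ∉ Y) : ∀ x : Y, io Y x ≠ d := by
  rintro ⟨x, hx⟩ h1
  exact h (h1 ▸ hx)

theorem io_inj (Y : Finset B) : Function.Injective (io Y) := Subtype.val_injective

theorem Vs_bar {Y : Finset B} (a : Sh (pull M (io Y) (io_inj Y)) (po ∘ io Y)) {z : B → ℝ} :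
    Vs Y (geo cs (bar cs ho (io Y) (io_inj Y) a) z) ↔ Vs Y z := by
  have h : ∀ d, d ∉ Y → geo cs (bar cs ho (io Y) (io_inj Y) a) z d = z d := fun d hd =>
    coord cs ho (io Y) (io_inj Y) a z d (io_ne hd)
  constructor
  · intro h1 d hd
    rw [← h d hd]
    exact h1 d hd
  · intro h1 d hd
    rw [h d hd]
    exact h1 d hd

/-- positivity -/
theorem geo_Vs_nonneg {Y : Finset B} {m : W} (hm : Mn cs (io Y) m) {z : B → ℝ} (hz : Vs Y z)
    (h : 0 ≤ z) : 0 ≤ geo cs m z := by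
  intro e
  rw [geo_sum]
  refine Finset.sum_nonneg fun d _ => ?_
  by_cases hd : d ∈ Y
  · exact mul_nonneg (h d) (hm ⟨d, hd⟩ e)
  · rw [hz d hd, zero_mul]

theorem geo_Vs_nonpos {Y : Finset B} {m : W} (hm : Mn cs (io Y) m) {z : B → ℝ} (hz : Vs Y z)
    (h : z ≤ 0) : geo cs m z ≤ 0 := by
  have h1 := geo_Vs_nonneg cs hm (z := -z) (by
    intro d hd
    rw [Pi.neg_apply, hz d hd, neg_zero]) (by
    intro d
    rw [Pi.neg_apply, Pi.zero_apply]
    have := h d
    rw [Pi.zero_apply] at this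
    linarith)
  rw [map_neg] at h1
  exact neg_nonneg.1 h1

/-- the vectors in the inverse image -/
theorem Vs_filter {X Y : Finset B} {m : W} (hm : Mn cs (io Y) m) {z : B → ℝ} (hz : Vs Y z)
    (hs : 0 ≤ z ∨ z ≤ 0) (hX : Vs X (geo cs m z)) (y : B) (hy : z y ≠ 0) :
    Vs X (geo cs m (ee y)) := by
  intro e he
  have h1 := hX e he
  rw [geo_sum] at h1
  have hyY : y ∈ Y := by
    by_contra h
    exact hy (hz y h)
  rcases hs with hs | hs
  · have h2 : ∀ d ∈ (Finset.univ : Finset B), 0 ≤ z d * geo cs m (ee d) e := by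
      intro d _
      by_cases hd : d ∈ Y
      · exact mul_nonneg (hs d) (hm ⟨d, hd⟩ e)
      · rw [hz d hd, zero_mul]
    rw [Finset.sum_eq_zero_iff_of_nonneg h2] at h1
    exact (mul_eq_zero.1 (h1 y (Finset.mem_univ _))).resolve_left hy
  · have h2 : ∀ d ∈ (Finset.univ : Finset B), z d * geo cs m (ee d) e ≤ 0 := by
      intro d _
      by_cases hd : d ∈ Y
      · exact mul_nonpos_of_nonpos_of_nonneg (hs d) (hm ⟨d, hd⟩ e)
      · rw [hz d hd, zero_mul]
    rw [Finset.sum_eq_zero_iff_of_nonpos h2] at h1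
    exact (mul_eq_zero.1 (h1 y (Finset.mem_univ _))).resolve_left hy

include ho in
/-- the intersection of the translates -/
theorem rdata (u : W) (X : Finset B) : ∃ (Y : Finset B) (h : W), Y.card ≤ X.card ∧
    Mn cs (io Y) h ∧
    (∀ (g : W) (i : B), (∀ n : ℤ, Vs X (geo cs (u ^ n) (geo cs g (ee i)))) →
      Vs Y (geo cs h⁻¹ (geo cs g (ee i)))) ∧
    (∀ z : B → ℝ, Vs Y (geo cs h⁻¹ z) → ∀ n : ℤ, Vs X (geo cs (u ^ n) z)) := by
  classical
  have hex : ∃ k : ℕ, ∃ (Y : Finset B) (h : W), Y.card = k ∧ Mn cs (io Y) h ∧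
      (∀ (g : W) (i : B), (∀ n : ℤ, Vs X (geo cs (u ^ n) (geo cs g (ee i)))) →
        Vs Y (geo cs h⁻¹ (geo cs g (ee i)))) := by
    refine ⟨X.card, X, 1, rfl, Mn_one cs _, fun g i h => ?_⟩
    have h1 := h 0
    rwa [zpow_zero, ← inv_one] at h1
  obtain ⟨Y, h, hYc, hh, hroot⟩ := Nat.find_spec hex
  have hmin : ∀ (Y' : Finset B) (h' : W), Mn cs (io Y') h' →
      (∀ (g : W) (i : B), (∀ n : ℤ, Vs X (geo cs (u ^ n) (geo cs g (ee i)))) →
        Vs Y' (geo cs h'⁻¹ (geo cs g (ee i)))) → Y.card ≤ Y'.card := by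
    intro Y' h' h1 h2
    rw [hYc]
    exact Nat.find_min' hex ⟨Y', h', rfl, h1, h2⟩
  refine ⟨Y, h, hmin X 1 (Mn_one cs _) fun g i h => ?_, hh, hroot, ?_⟩
  · have h1 := h 0
    rwa [zpow_zero, ← inv_one] at h1
  intro z hz j
  obtain ⟨m, a, hm, hma⟩ := ex_min cs ho (io Y) (io_inj Y) (u ^ j * h)
  obtain ⟨Y', hY'⟩ : ∃ Y' : Finset B, Y' = Y.filter (fun y => Vs X (geo cs m (ee y))) := ⟨_, rfl⟩
  have hsub : Y' ⊆ Y := by
    rw [hY']
    exact Finset.filter_subset _ _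
  obtain ⟨h', a', hh', hha'⟩ := ex_min cs ho (io Y') (io_inj Y')
    (h * (bar cs ho (io Y) (io_inj Y) a)⁻¹)
  have key : ∀ z' : B → ℝ, geo cs (u ^ j) z' =
      geo cs m (geo cs (bar cs ho (io Y) (io_inj Y) a) (geo cs h⁻¹ z')) := by
    intro z'
    rw [← geo_mul_apply, ← geo_mul_apply, ← hma, mul_inv_cancel_right]
  have hYY : Y' = Y := by
    refine Finset.eq_of_subset_of_card_le hsub (hmin Y' h' hh' fun g i hgi => ?_)
    have h1 := hroot g i hgi
    have h2 : h'⁻¹ = bar cs ho (io Y') (io_inj Y') a' *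
        (bar cs ho (io Y) (io_inj Y) a * h⁻¹) := by
      have h3 : h' = h * (bar cs ho (io Y) (io_inj Y) a)⁻¹ *
          (bar cs ho (io Y') (io_inj Y') a')⁻¹ := by
        rw [hha', mul_inv_cancel_right]
      rw [h3]
      group
    rw [h2, geo_mul_apply, Vs_bar]
    obtain ⟨η, hη⟩ : ∃ η : B → ℝ, η = geo cs (bar cs ho (io Y) (io_inj Y) a * h⁻¹)
      (geo cs g (ee i)) := ⟨_, rfl⟩
    rw [← hη]
    have hηY : Vs Y η := by
      rw [hη, geo_mul_apply, Vs_bar]
      exact h1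
    have hηs : 0 ≤ η ∨ η ≤ 0 := by
      rw [hη, ← geo_mul_apply]
      exact sgn cs _ i
    have hηX : Vs X (geo cs m η) := by
      rw [hη, geo_mul_apply, ← key]
      exact hgi j
    intro d hd
    by_contra hcon
    apply hd
    rw [hY', Finset.mem_filter]
    refine ⟨?_, Vs_filter cs hm hηY hηs hηX d hcon⟩
    by_contra h4
    exact hcon (hηY d h4)
  rw [key]
  have hz' : Vs Y (geo cs (bar cs ho (io Y) (io_inj Y) a) (geo cs h⁻¹ z)) := by
    rw [Vs_bar]
    exact hz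
  intro e he
  rw [geo_sum]
  refine Finset.sum_eq_zero fun d _ => ?_
  by_cases hd : d ∈ Y
  · rw [← hYY, hY', Finset.mem_filter] at hd
    rw [hd.2 e he, mul_zero]
  · rw [hz' d hd, zero_mul]

/-- `D` fixes the simple roots of `Y` up to positive factors -/
def Fx (Y : Finset B) (D : W) : Prop := ∀ y ∈ Y, ∃ t : ℝ, 0 < t ∧ geo cs D (ee y) = t • ee y

variable {cs}

theorem Fx.one (Y : Finset B) : Fx cs Y (1 : W) := fun y _ => ⟨1, one_pos, by rw [map_one, one_smul]; rfl⟩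

theorem Fx.mul {Y : Finset B} {D D' : W} (h : Fx cs Y D) (h' : Fx cs Y D') : Fx cs Y (D * D') := by
  intro y hy
  obtain ⟨t, ht, h1⟩ := h y hy
  obtain ⟨t', ht', h1'⟩ := h' y hy
  refine ⟨t' * t, mul_pos ht' ht, ?_⟩
  rw [geo_mul_apply, h1', map_smul, h1, smul_smul]

theorem Fx.inv {Y : Finset B} {D : W} (h : Fx cs Y D) : Fx cs Y D⁻¹ := by
  intro y hy
  obtain ⟨t, ht, h1⟩ := h y hy
  refine ⟨t⁻¹, _root_.inv_pos.2 ht, ?_⟩
  have h2 : (ee y : B → ℝ) = t⁻¹ • geo cs D (ee y) := by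
    rw [h1, smul_smul, inv_mul_cancel₀ ht.ne', one_smul]
  conv_lhs => rw [h2]
  rw [map_smul, geo_inv_apply]

theorem Fx.pow {Y : Finset B} {D : W} (h : Fx cs Y D) (n : ℕ) : Fx cs Y (D ^ n) := by
  induction n with
  | zero => rw [pow_zero]; exact Fx.one Y
  | succ n ih => rw [pow_succ]; exact ih.mul h

theorem Fx.zpow {Y : Finset B} {D : W} (h : Fx cs Y D) (n : ℤ) : Fx cs Y (D ^ n) := by
  rcases Int.eq_nat_or_neg n with ⟨k, rfl | rfl⟩
  · rw [zpow_natCast]; exact h.pow k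
  · rw [zpow_neg, zpow_natCast]; exact (h.pow k).inv

theorem Fx.comm {Y : Finset B} {D : W} (h : Fx cs Y D) {y : B} (hy : y ∈ Y) :
    cs.simple y * D = D * cs.simple y := by
  obtain ⟨t, _, h1⟩ := h y hy
  exact trick cs h1

theorem Fx.Mn {Y : Finset B} {D v : W} (h : Fx cs Y D) (hv : Mn cs (io Y) v) :
    Mn cs (io Y) (v * D) := by
  intro y
  obtain ⟨t, ht, h1⟩ := h y.1 y.2
  have h2 : geo cs D (ee (io Y y)) = t • ee (io Y y) := h1
  rw [geo_mul_apply, h2, map_smul]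
  exact smul_nonneg ht.le (hv y)

theorem Fx.comm_bar {Y : Finset B} {D : W} (h : Fx cs Y D)
    (a : Sh (pull M (io Y) (io_inj Y)) (po ∘ io Y)) :
    bar cs ho (io Y) (io_inj Y) a * D = D * bar cs ho (io Y) (io_inj Y) a := by
  induction a using Sh.induction with
  | one => rw [map_one, one_mul, mul_one]
  | gen i =>
    rw [bar_gen]
    exact h.comm i.2
  | mul x y hx hy => rw [map_mul, mul_assoc, hy, ← mul_assoc, hx, mul_assoc]
  | inv x hx =>
    rw [map_inv, inv_mul_eq_iff_eq_mul, ← mul_assoc, hx, mul_inv_cancel_right]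

variable (cs)

/-- the intersection of the translates, and the translation -/
theorem rdata2 (u : W) (X : Finset B) : ∃ (Y : Finset B) (h D : W), Y.card ≤ X.card ∧
    Mn cs (io Y) h ∧
    (∀ (g : W) (i : B), (∀ n : ℤ, Vs X (geo cs (u ^ n) (geo cs g (ee i)))) →
      Vs Y (geo cs h⁻¹ (geo cs g (ee i)))) ∧
    (∀ z : B → ℝ, Vs Y (geo cs h⁻¹ z) → ∀ n : ℤ, Vs X (geo cs (u ^ n) z)) ∧
    Fx cs Y D ∧ ∃ a : Sh (pull M (io Y) (io_inj Y)) (po ∘ io Y),
      u ^ (Fintype.card B).factorial * h = h * D * bar cs ho (io Y) (io_inj Y) a := by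
  classical
  obtain ⟨Y, h, hc, hh, h1, h2⟩ := rdata cs ho u X
  obtain ⟨m, a, hm, hma⟩ := ex_min cs ho (io Y) (io_inj Y) (u * h)
  obtain ⟨δ, hδ⟩ : ∃ δ : W, δ = h⁻¹ * m := ⟨_, rfl⟩
  have hmδ : m = h * δ := by rw [hδ, mul_inv_cancel_left]
  -- invariance
  have hinv : ∀ (g : W) (i : B), Vs Y (geo cs h⁻¹ (geo cs (u⁻¹ * g) (ee i))) ↔
      Vs Y (geo cs h⁻¹ (geo cs g (ee i))) := by
    intro g i
    constructor
    · intro h3
      apply h1
      intro n
      have h4 := h2 _ h3 (n + 1)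
      rw [← geo_mul_apply] at h4 ⊢
      rwa [show u ^ (n + 1) * (u⁻¹ * g) = u ^ n * g by group] at h4
    · intro h3
      apply h1
      intro n
      have h4 := h2 _ h3 (n - 1)
      rw [← geo_mul_apply] at h4 ⊢
      rwa [show u ^ (n - 1) * g = u ^ n * (u⁻¹ * g) by group] at h4
  have hsgn : ∀ (v v' : W) (y : B), Mn cs (io Y) v → 0 ≤ geo cs (v * v') (ee y) →
      Vs Y (geo cs v' (ee y)) → 0 ≤ geo cs v' (ee y) := by
    intro v v' y hv h3 h4
    rcases sgn cs v' y with h5 | h5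
    · exact h5
    · exfalso
      have h6 := geo_Vs_nonpos cs hv h4 h5
      rw [← geo_mul_apply] at h6
      exact geo_ee_ne_zero cs _ y (le_antisymm h6 h3)
  have hee : ∀ y ∈ Y, Vs Y (ee y) := by
    intro y hy d hd
    have : d ≠ y := fun h3 => hd (h3 ▸ hy)
    simp [ee, Pi.single_apply, this]
  -- `δ` is minimal
  have hδY : ∀ y ∈ Y, Vs Y (geo cs δ (ee y)) := by
    intro y hy
    have h3 : Vs Y (geo cs h⁻¹ (geo cs (u⁻¹ * m) (ee y))) := by
      rw [← geo_mul_apply]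
      have h4 : h⁻¹ * (u⁻¹ * m) = (bar cs ho (io Y) (io_inj Y) a)⁻¹ := by
        have h5 : m = u * h * (bar cs ho (io Y) (io_inj Y) a)⁻¹ := by
          rw [hma, mul_inv_cancel_right]
        rw [h5]
        group
      rw [h4, ← map_inv, Vs_bar]
      exact hee y hy
    rw [hinv, ← geo_mul_apply, ← hδ] at h3
    exact h3
  have hδM : Mn cs (io Y) δ := by
    intro y
    refine hsgn h δ y.1 hh ?_ (hδY y.1 y.2)
    rw [← hmδ]
    exact hm y
  have hδ' : ∀ y ∈ Y, Vs Y (geo cs δ⁻¹ (ee y)) := by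
    intro y hy
    have h3 : Vs Y (geo cs h⁻¹ (geo cs h (ee y))) := by
      rw [geo_inv_apply]
      exact hee y hy
    rw [← hinv, ← geo_mul_apply] at h3
    have h4 : h⁻¹ * (u⁻¹ * h) = (bar cs ho (io Y) (io_inj Y) a)⁻¹ * δ⁻¹ := by
      have h5 : h = u⁻¹ * m * bar cs ho (io Y) (io_inj Y) a := by
        have : u⁻¹ * m * bar cs ho (io Y) (io_inj Y) a =
            u⁻¹ * (m * bar cs ho (io Y) (io_inj Y) a) := by group
        rw [this, ← hma]
        group
      rw [hδ]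
      have h6 : u = m * bar cs ho (io Y) (io_inj Y) a * h⁻¹ := by
        rw [← hma, mul_inv_cancel_right]
      rw [h6]
      group
    rw [h4, geo_mul_apply, ← map_inv, Vs_bar] at h3
    exact h3
  have hτ : ∀ y : Y, ∃ x : Y, ∃ t : ℝ, 0 < t ∧ geo cs δ⁻¹ (ee y.1) = t • ee x.1 := by
    intro y
    obtain ⟨x, hx⟩ := of_span cs (io Y) hδM (b := y.1) (fun d hd => hδ' y.1 y.2 d (by
      intro h3
      exact hd ⟨d, h3⟩ rfl))
    obtain ⟨t, ht⟩ := line cs hx
    refine ⟨x, t, ?_, ht⟩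
    have h3 : (ee y.1 : B → ℝ) = t • geo cs δ (ee x.1) := by
      have h4 := Pool.Agent.Helper741.geo_apply_inv cs δ (ee y.1)
      rw [ht, map_smul] at h4
      exact h4.symm
    have h4 : 0 ≤ geo cs δ (ee x.1) := hδM x
    have h5 := congrFun h3 y.1
    rw [Pi.smul_apply, smul_eq_mul] at h5
    have h6 : (ee y.1 : B → ℝ) y.1 = 1 := by simp [ee]
    rw [h6] at h5
    have h7 := h4 y.1
    by_contra h8
    push Not at h8
    have h9 := mul_nonpos_of_nonpos_of_nonneg h8 h7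
    rw [← h5] at h9
    norm_num at h9
  choose τ hτ' using hτ
  have hτi : Function.Injective τ := by
    intro y y' hyy
    obtain ⟨t, ht, h3⟩ := hτ' y
    obtain ⟨t', ht', h3'⟩ := hτ' y'
    have h4 : (ee y.1 : B → ℝ) = (t * t'⁻¹) • ee y'.1 := by
      apply geo_injective_apply cs δ⁻¹
      rw [h3, map_smul, h3', hyy, smul_smul, mul_assoc, inv_mul_cancel₀ ht'.ne', mul_one]
    by_contra hne
    have hne' : y.1 ≠ y'.1 := fun h5 => hne (Subtype.ext h5)
    have h5 := congrFun h4 y.1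
    rw [Pi.smul_apply] at h5
    simp [ee, Pi.single_apply, hne'] at h5
  obtain ⟨σ, hσ⟩ : ∃ σ : Equiv.Perm Y, ∀ y, σ y = τ y :=
    ⟨Equiv.ofBijective τ (Finite.injective_iff_bijective.1 hτi), fun y => rfl⟩
  have hpow : ∀ (k : ℕ) (y : Y), ∃ t : ℝ, 0 < t ∧
      geo cs (δ⁻¹ ^ k) (ee y.1) = t • ee ((σ ^ k) y).1 := by
    intro k
    induction k with
    | zero =>
      intro y
      refine ⟨1, one_pos, ?_⟩
      rw [pow_zero, map_one, one_smul]
      rfl
    | succ k ih =>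
      intro y
      obtain ⟨t, ht, h3⟩ := ih y
      obtain ⟨t', ht', h3'⟩ := hτ' ((σ ^ k) y)
      refine ⟨t * t', mul_pos ht ht', ?_⟩
      rw [pow_succ', geo_mul_apply, h3, map_smul, h3', smul_smul, pow_succ', Equiv.Perm.mul_apply,
        hσ]
  obtain ⟨K, hK⟩ : ∃ K : ℕ, K = (Fintype.card B).factorial := ⟨_, rfl⟩
  have hσK : σ ^ K = 1 := by
    have h3 : Nat.card (Equiv.Perm Y) ∣ K := by
      rw [Nat.card_perm, Nat.card_eq_fintype_card, hK]
      apply Nat.factorial_dvd_factorial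
      exact Fintype.card_le_of_injective _ (io_inj Y)
    obtain ⟨c, hc'⟩ := h3
    rw [hc', pow_mul, pow_card_eq_one', one_pow]
  have hFx : Fx cs Y (δ ^ K) := by
    have h3 : Fx cs Y (δ⁻¹ ^ K) := by
      intro y hy
      obtain ⟨t, ht, h4⟩ := hpow K ⟨y, hy⟩
      rw [hσK] at h4
      exact ⟨t, ht, h4⟩
    have h4 := h3.inv
    rwa [inv_pow, inv_inv] at h4
  -- normalization
  have hnorm : ∀ a : Sh (pull M (io Y) (io_inj Y)) (po ∘ io Y),
      ∃ a' : Sh (pull M (io Y) (io_inj Y)) (po ∘ io Y),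
        bar cs ho (io Y) (io_inj Y) a * δ = δ * bar cs ho (io Y) (io_inj Y) a' := by
    intro a
    induction a using Sh.induction with
    | one => exact ⟨1, by rw [map_one, one_mul, mul_one]⟩
    | gen i =>
      obtain ⟨t, ht, h3⟩ := hτ' i
      refine ⟨Sh.gen _ _ (τ i), ?_⟩
      rw [bar_gen, bar_gen]
      have h4 : geo cs δ (ee (τ i).1) = t⁻¹ • ee i.1 := by
        have h5 : (ee (τ i).1 : B → ℝ) = t⁻¹ • geo cs δ⁻¹ (ee i.1) := by
          rw [h3, smul_smul, inv_mul_cancel₀ ht.ne', one_smul]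
        rw [h5, map_smul, Pool.Agent.Helper741.geo_apply_inv]
      exact trick cs h4
    | mul x y hx hy =>
      obtain ⟨x', hx'⟩ := hx
      obtain ⟨y', hy'⟩ := hy
      refine ⟨x' * y', ?_⟩
      rw [map_mul, map_mul, mul_assoc, hy', ← mul_assoc, hx', mul_assoc]
    | inv x hx =>
      obtain ⟨x', hx'⟩ := hx
      refine ⟨x'⁻¹, ?_⟩
      rw [map_inv, map_inv, inv_mul_eq_iff_eq_mul, ← mul_assoc, hx', mul_inv_cancel_right]
  have hpowu : ∀ k : ℕ, ∃ a : Sh (pull M (io Y) (io_inj Y)) (po ∘ io Y),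
      u ^ k * h = h * δ ^ k * bar cs ho (io Y) (io_inj Y) a := by
    intro k
    induction k with
    | zero => exact ⟨1, by rw [map_one, pow_zero, pow_zero, one_mul, mul_one, mul_one]⟩
    | succ k ih =>
      obtain ⟨b, hb⟩ := ih
      obtain ⟨b', hb'⟩ := hnorm b
      refine ⟨b' * a, ?_⟩
      calc u ^ (k + 1) * h = u ^ k * (u * h) := by rw [pow_succ, mul_assoc]
        _ = u ^ k * h * δ * bar cs ho (io Y) (io_inj Y) a := by
            rw [hma, hmδ]
            group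
        _ = h * δ ^ k * (bar cs ho (io Y) (io_inj Y) b * δ) *
            bar cs ho (io Y) (io_inj Y) a := by
            rw [hb]
            group
        _ = _ := by
            rw [hb', map_mul, pow_succ]
            group
  obtain ⟨b, hb⟩ := hpowu K
  exact ⟨Y, h, δ ^ K, hc, hh, h1, h2, hFx, b, by rw [← hK]; exact hb⟩

end Run7.h952.AR
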