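import Pool.Agent.Run7.h952.AR.Main

/-!
# Arbitrary rank
-/

set_option autoImplicit false
set_option linter.unusedSectionVars false
set_option linter.unusedSimpArgs false

namespace Run7.h952.AR

open Pool.Agent.Helper741 CoxeterSystem Pool.Agent.K7.H87.FJ6
open Pool.Agent.Y110.FJ
open Pool.Agent.Y462.SS (Closed Wr)

variable {C : ∀ (G : Type) [Group G], Prop}

section

variable {B : Type} (M : CoxeterMatrix B) (po : B → ℕ)

theorem ij (Y : Finset B) : Function.Injective (io Y) := Subtype.val_injective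

/-- the group of a finite set of generators -/
abbrev ShT (T : Finset B) : Type := Sh (pull M (io T) (ij T)) (po ∘ io T)

/-- the inclusion of parabolic subgroups -/
def incT {Z X : Finset B} (h : Z ⊆ X) : ShT M po Z →* ShT M po X :=
  Sh.lift (fun z => Sh.gen _ _ ⟨z.1, h z.2⟩)
    (fun i j => Sh.rel (M := pull M (io X) (ij X)) (p := po ∘ io X) ⟨i.1, h i.2⟩ ⟨j.1, h j.2⟩)
    (fun i => Sh.pow (M := pull M (io X) (ij X)) (p := po ∘ io X) ⟨i.1, h i.2⟩)

theorem incT_gen {Z X : Finset B} (h : Z ⊆ X) (z : Z) :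
    incT M po h (Sh.gen _ _ z) = Sh.gen _ _ ⟨z.1, h z.2⟩ := Sh.lift_gen _ _ _ _

/-- the inclusion of free groups -/
def fr {Z X : Finset B} (h : Z ⊆ X) : FreeGroup Z →* FreeGroup X :=
  FreeGroup.map fun z => ⟨z.1, h z.2⟩

/-- the projection -/
abbrev mk' (T : Finset B) : FreeGroup T →* ShT M po T := PresentedGroup.mk _

theorem mk_fr {Z X : Finset B} (h : Z ⊆ X) (w : FreeGroup Z) :
    mk' M po X (fr h w) = incT M po h (mk' M po Z w) := by
  have h1 : (mk' M po X).comp (fr h) = (incT M po h).comp (mk' M po Z) := by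
    apply FreeGroup.ext_hom
    intro z
    show mk' M po X (fr h (FreeGroup.of z)) = incT M po h (Sh.gen _ _ z)
    rw [incT_gen, fr, FreeGroup.map.of]
    rfl
  exact DFunLike.congr_fun h1 w

theorem map_fr {Z X : Finset B} (h : Z ⊆ X) (w : FreeGroup Z) :
    FreeGroup.map (io X) (fr h w) = FreeGroup.map (io Z) w := by
  rw [fr, FreeGroup.map.comp]
  rfl

theorem ex_fr [DecidableEq B] (w : FreeGroup B) :
    ∃ (T : Finset B) (v : FreeGroup T), FreeGroup.map (io T) v = w := by
  induction w using FreeGroup.induction_on with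
  | C1 => exact ⟨∅, 1, map_one _⟩
  | of b =>
    refine ⟨{b}, FreeGroup.of ⟨b, Finset.mem_singleton_self b⟩, ?_⟩
    rw [FreeGroup.map.of]
  | inv_of b ih =>
    obtain ⟨T, v, hv⟩ := ih
    exact ⟨T, v⁻¹, by rw [map_inv, hv]⟩
  | mul x y hx hy =>
    obtain ⟨T, v, hv⟩ := hx
    obtain ⟨T', v', hv'⟩ := hy
    refine ⟨T ∪ T', fr Finset.subset_union_left v * fr Finset.subset_union_right v', ?_⟩
    rw [map_mul, map_fr, map_fr, hv, hv']

/-- a relation uses finitely many generators -/
theorem fin_rel [DecidableEq B] (w : FreeGroup B) (hw : PresentedGroup.mk (rels M po) w = 1) :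
    ∃ (T : Finset B) (v : FreeGroup T), FreeGroup.map (io T) v = w ∧ mk' M po T v = 1 := by
  let N : Subgroup (FreeGroup B) :=
    { carrier := {w | ∃ (T : Finset B) (v : FreeGroup T), FreeGroup.map (io T) v = w ∧
        mk' M po T v = 1}
      one_mem' := ⟨∅, 1, map_one _, map_one _⟩
      mul_mem' := by
        rintro x y ⟨T, v, hv, h1⟩ ⟨T', v', hv', h1'⟩
        refine ⟨T ∪ T', fr Finset.subset_union_left v * fr Finset.subset_union_right v', ?_, ?_⟩
        · rw [map_mul, map_fr, map_fr, hv, hv']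
        · rw [map_mul, mk_fr, mk_fr, h1, h1', map_one, map_one, one_mul]
      inv_mem' := by
        rintro x ⟨T, v, hv, h1⟩
        exact ⟨T, v⁻¹, by rw [map_inv, hv], by rw [map_inv, h1, inv_one]⟩ }
  have hN : N.Normal := by
    refine ⟨?_⟩
    rintro x ⟨T, v, hv, h1⟩ g
    obtain ⟨T', v', hv'⟩ := ex_fr g
    refine ⟨T ∪ T', fr Finset.subset_union_right v' * fr Finset.subset_union_left v *
      (fr Finset.subset_union_right v')⁻¹, ?_, ?_⟩
    · rw [map_mul, map_mul, map_inv, map_fr, map_fr, hv, hv']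
    · rw [map_mul, map_mul, map_inv, mk_fr, mk_fr, h1, map_one, mul_one, mul_inv_cancel]
  have hle : Subgroup.normalClosure (rels M po) ≤ N := by
    apply Subgroup.normalClosure_le_normal
    rintro r (⟨i, j, rfl⟩ | ⟨i, rfl⟩)
    · have hi : i ∈ ({i, j} : Finset B) := Finset.mem_insert_self _ _
      have hj : j ∈ ({i, j} : Finset B) := Finset.mem_insert_of_mem (Finset.mem_singleton_self _)
      refine ⟨{i, j}, alt (FreeGroup.of ⟨i, hi⟩) (FreeGroup.of ⟨j, hj⟩) (M i j) *
        (alt (FreeGroup.of ⟨j, hj⟩) (FreeGroup.of ⟨i, hi⟩) (M i j))⁻¹, ?_, ?_⟩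
      · rw [map_mul, map_inv, map_alt, map_alt, FreeGroup.map.of, FreeGroup.map.of]
      · rw [map_mul, map_inv, map_alt, map_alt, mul_inv_eq_one]
        exact Sh.rel (M := pull M (io {i, j}) (ij _)) (p := po ∘ io {i, j}) ⟨i, hi⟩ ⟨j, hj⟩
    · refine ⟨{i}, FreeGroup.of ⟨i, Finset.mem_singleton_self i⟩ ^ po i, ?_, ?_⟩
      · rw [map_pow, FreeGroup.map.of]
      · rw [map_pow]
        exact Sh.pow (M := pull M (io {i}) (ij _)) (p := po ∘ io {i})
          ⟨i, Finset.mem_singleton_self i⟩
  exact hle (PresentedGroup.mk_eq_one_iff.1 hw)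

variable {M po}

theorem mk_inc {A : Type} (ι : A → B) (hι : Function.Injective ι) (w : FreeGroup A) :
    inc M po ι hι (PresentedGroup.mk _ w) = PresentedGroup.mk (rels M po) (FreeGroup.map ι w) := by
  have h1 : (inc M po ι hι).comp (PresentedGroup.mk _) =
      (PresentedGroup.mk (rels M po)).comp (FreeGroup.map ι) := by
    apply FreeGroup.ext_hom
    intro z
    show inc M po ι hι (Sh.gen _ _ z) = _
    rw [inc_gen, MonoidHom.comp_apply, FreeGroup.map.of]
    rfl
  exact DFunLike.congr_fun h1 w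

/-- standard parabolic subgroups, arbitrary rank -/
theorem inc_injective' (ho : Adm M po) {A : Type} [Finite A] (ι : A → B)
    (hι : Function.Injective ι) : Function.Injective (inc M po ι hι) := by
  classical
  have := Fintype.ofFinite A
  rw [injective_iff_map_eq_one]
  intro x hx
  obtain ⟨w, rfl⟩ := PresentedGroup.mk_surjective _ x
  rw [mk_inc] at hx
  obtain ⟨T, v, hv, hv1⟩ := fin_rel M po _ hx
  obtain ⟨T', hT'⟩ : ∃ T' : Finset B, T' = T ∪ Finset.univ.image ι := ⟨_, rfl⟩
  have hTT : T ⊆ T' := by rw [hT']; exact Finset.subset_union_left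
  have hιT : ∀ a, ι a ∈ T' := by
    intro a
    rw [hT']
    exact Finset.mem_union_right _ (Finset.mem_image_of_mem _ (Finset.mem_univ a))
  let ι' : A → T' := fun a => ⟨ι a, hιT a⟩
  have hι' : Function.Injective ι' := fun a b hab => hι (congrArg Subtype.val hab)
  have h1 : FreeGroup.map ι' w = fr hTT v := by
    apply FreeGroup.map_injective (ij T')
    rw [map_fr, hv, FreeGroup.map.comp]
    rfl
  have h2 : inc (pull M (io T') (ij T')) (po ∘ io T') ι' hι' (PresentedGroup.mk _ w) = 1 := by
    rw [mk_inc, h1]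
    have h3 := mk_fr M po hTT v
    rw [hv1, map_one] at h3
    exact h3
  have h3 : (PresentedGroup.mk (rels (pull (pull M (io T') (ij T')) ι' hι') ((po ∘ io T') ∘ ι'))) w =
      1 := inc_injective (ho.pull (io T') (ij T')) ι' hι' (by rw [h2, map_one])
  exact h3

end

/-- **the reduction**, arbitrary rank -/
theorem main_inf (hC : ClosedE C)
    (hcox : ∀ (S : Type) [Finite S] (A : CoxeterMatrix S), C A.Group)
    (B : Type) (M : CoxeterMatrix B) (po : B → ℕ) (ho : Adm M po) :
    C (Sh M po) ↔ ∀ (A : Type) [Finite A] (ι : A → B) (hι : Function.Injective ι),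
      (∀ i j, M (ι i) (ι j) ≠ 0) → C (Sh (pull M ι hι) (po ∘ ι)) := by
  classical
  constructor
  · intro h A _ ι hι _
    exact hC.base.of_injective _ _ (inc M po ι hι) (inc_injective' ho ι hι) h
  · intro hpar
    refine hC.base.colim (Finset B) (fun i j => ⟨i ∪ j, Finset.subset_union_left,
      Finset.subset_union_right⟩) (fun T => ShT M po T) (fun i j h => incT M po h) (Sh M po)
      (fun T => inc M po (io T) (ij T)) ?_ ?_ ?_ ?_ ?_ ?_
    · intro i h x
      have h1 : incT M po h = MonoidHom.id _ := by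
        apply Sh.hom_ext
        intro z
        rw [incT_gen]
        rfl
      rw [h1]
      rfl
    · intro i j k h h' x
      have h1 : (incT M po h').comp (incT M po h) = incT M po (h.trans h') := by
        apply Sh.hom_ext
        intro z
        rw [MonoidHom.comp_apply, incT_gen, incT_gen, incT_gen]
      exact DFunLike.congr_fun h1 x
    · intro i j h x
      have h1 : (inc M po (io j) (ij j)).comp (incT M po h) = inc M po (io i) (ij i) := by
        apply Sh.hom_ext
        intro z
        rw [MonoidHom.comp_apply, incT_gen, inc_gen, inc_gen]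
      exact DFunLike.congr_fun h1 x
    · intro y
      obtain ⟨w, rfl⟩ := PresentedGroup.mk_surjective _ y
      obtain ⟨T, v, hv⟩ := ex_fr w
      refine ⟨T, PresentedGroup.mk _ v, ?_⟩
      rw [mk_inc, hv]
    · intro i x hx
      refine ⟨i, le_rfl, ?_⟩
      have h1 : x = 1 := inc_injective' ho (io i) (ij i) (by rw [hx, map_one])
      rw [h1, map_one]
    · intro T
      refine main hC hcox (Fintype.card T) T _ _ (ho.pull (io T) (ij T)) rfl ?_
      intro A _ ι hι h1
      exact hpar A (io T ∘ ι) ((ij T).comp hι) h1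

end Run7.h952.AR
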