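import Pool.Agent.Run7.h952.AR.Inf

/-!
# Reduction to irreducible matrices
-/

set_option autoImplicit false
set_option linter.unusedSectionVars false
set_option linter.unusedSimpArgs false

namespace Run7.h952.AR

open Pool.Agent.Helper741 CoxeterSystem Pool.Agent.K7.H87.FJ6
open Pool.Agent.Y110.FJ
open Pool.Agent.Y462.SS (Closed Wr)

variable {C : ∀ (G : Type) [Group G], Prop}

theorem vinj {B : Type} (S : Set B) : Function.Injective (Subtype.val : S → B) :=
  Subtype.val_injective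

/-- direct products -/
theorem prod_mem (hC : Closed C) {B : Type} (M : CoxeterMatrix B) (po : B → ℕ) (S : Set B)
    (h2 : ∀ x ∈ S, ∀ y, y ∉ S → M x y = 2)
    (h1 : C (Sh (pull M (Subtype.val : S → B) (vinj S)) (po ∘ (Subtype.val : S → B))))
    (h1' : C (Sh (pull M (Subtype.val : ↥Sᶜ → B) (vinj Sᶜ)) (po ∘ (Subtype.val : ↥Sᶜ → B)))) :
    C (Sh M po) := by
  classical
  obtain ⟨G, hG⟩ : ∃ G, G = Sh (pull M (Subtype.val : S → B) (vinj S)) (po ∘ (Subtype.val : S → B)) :=
    ⟨_, rfl⟩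
  let gg : B → Sh (pull M (Subtype.val : S → B) (vinj S)) (po ∘ (Subtype.val : S → B)) ×
      Sh (pull M (Subtype.val : ↥Sᶜ → B) (vinj Sᶜ)) (po ∘ (Subtype.val : ↥Sᶜ → B)) := fun b =>
    if h : b ∈ S then (Sh.gen _ _ ⟨b, h⟩, 1) else (1, Sh.gen _ _ ⟨b, h⟩)
  have g1 : ∀ b (h : b ∈ S), gg b = MonoidHom.inl _ _ (Sh.gen _ _ ⟨b, h⟩) := fun b h => dif_pos h
  have g2 : ∀ b (h : b ∉ S), gg b = MonoidHom.inr _ _ (Sh.gen _ _ ⟨b, h⟩) := fun b h => dif_neg h
  have hmix : ∀ i j, i ∈ S → j ∉ S → gg i * gg j = gg j * gg i := by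
    intro i j hi hj
    rw [g1 i hi, g2 j hj]
    exact MonoidHom.commute_inl_inr _ _
  have hrel : ∀ i j, alt (gg i) (gg j) (M i j) = alt (gg j) (gg i) (M i j) := by
    intro i j
    by_cases hi : i ∈ S
    · by_cases hj : j ∈ S
      · rw [g1 i hi, g1 j hj, ← map_alt, ← map_alt]
        congr 1
        exact Sh.rel (M := pull M (Subtype.val : S → B) (vinj S))
          (p := po ∘ (Subtype.val : S → B)) ⟨i, hi⟩ ⟨j, hj⟩
      · rw [h2 i hi j hj, alt_two, alt_two, hmix i j hi hj]
    · by_cases hj : j ∈ S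
      · rw [M.symmetric i j, h2 j hj i hi, alt_two, alt_two, hmix j i hj hi]
      · rw [g2 i hi, g2 j hj, ← map_alt, ← map_alt]
        congr 1
        exact Sh.rel (M := pull M (Subtype.val : ↥Sᶜ → B) (vinj Sᶜ))
          (p := po ∘ (Subtype.val : ↥Sᶜ → B)) ⟨i, hi⟩ ⟨j, hj⟩
  have hpow : ∀ i, gg i ^ po i = 1 := by
    intro i
    by_cases hi : i ∈ S
    · rw [g1 i hi, ← map_pow]
      have h3 := Sh.pow (M := pull M (Subtype.val : S → B) (vinj S))
        (p := po ∘ (Subtype.val : S → B)) ⟨i, hi⟩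
      have h4 : Sh.gen (pull M (Subtype.val : S → B) (vinj S)) (po ∘ (Subtype.val : S → B)) ⟨i, hi⟩ ^
        po i = 1 := h3
      rw [h4, map_one]
    · rw [g2 i hi, ← map_pow]
      have h3 := Sh.pow (M := pull M (Subtype.val : ↥Sᶜ → B) (vinj Sᶜ))
        (p := po ∘ (Subtype.val : ↥Sᶜ → B)) ⟨i, hi⟩
      have h4 : Sh.gen (pull M (Subtype.val : ↥Sᶜ → B) (vinj Sᶜ))
        (po ∘ (Subtype.val : ↥Sᶜ → B)) ⟨i, hi⟩ ^ po i = 1 := h3
      rw [h4, map_one]
  have hc : ∀ (x : Sh (pull M (Subtype.val : S → B) (vinj S)) (po ∘ (Subtype.val : S → B)))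
      (y : Sh (pull M (Subtype.val : ↥Sᶜ → B) (vinj Sᶜ)) (po ∘ (Subtype.val : ↥Sᶜ → B))),
      Commute (inc M po Subtype.val (vinj S) x) (inc M po Subtype.val (vinj Sᶜ) y) := by
    intro x y
    induction x using Sh.induction with
    | one => rw [map_one]; exact Commute.one_left _
    | mul a b ha hb => rw [map_mul]; exact ha.mul_left hb
    | inv a ha => rw [map_inv]; exact ha.inv_left
    | gen i =>
      induction y using Sh.induction with
      | one => rw [map_one]; exact Commute.one_right _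
      | mul a b ha hb => rw [map_mul]; exact ha.mul_right hb
      | inv a ha => rw [map_inv]; exact ha.inv_right
      | gen j =>
        rw [inc_gen, inc_gen]
        have h3 := Sh.rel (M := M) (p := po) i.1 j.1
        rw [h2 i.1 i.2 j.1 j.2, alt_two, alt_two] at h3
        exact h3
  let R := MonoidHom.noncommCoprod (inc M po (Subtype.val : S → B) (vinj S))
    (inc M po (Subtype.val : ↥Sᶜ → B) (vinj Sᶜ)) hc
  have hRP : R.comp (Sh.lift gg hrel hpow) = MonoidHom.id _ := by
    apply Sh.hom_ext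
    intro i
    rw [MonoidHom.comp_apply, Sh.lift_gen]
    by_cases hi : i ∈ S
    · rw [g1 i hi]
      show inc M po (Subtype.val : S → B) (vinj S) (Sh.gen _ _ ⟨i, hi⟩) *
        inc M po (Subtype.val : ↥Sᶜ → B) (vinj Sᶜ) 1 = _
      rw [map_one, mul_one, inc_gen]
      rfl
    · rw [g2 i hi]
      show inc M po (Subtype.val : S → B) (vinj S) 1 *
        inc M po (Subtype.val : ↥Sᶜ → B) (vinj Sᶜ) (Sh.gen _ _ ⟨i, hi⟩) = _
      rw [map_one, one_mul, inc_gen]
      rfl
  refine hC.of_injective _ _ (Sh.lift gg hrel hpow) ?_ (hC.prod _ _ h1 h1')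
  intro a b hab
  have h3 := DFunLike.congr_fun hRP a
  have h4 := DFunLike.congr_fun hRP b
  rw [MonoidHom.comp_apply] at h3 h4
  rw [hab, h4] at h3
  exact h3.symm

/-- irreducible matrices without infinite labels -/
theorem irr (hC : Closed C) : ∀ (n : ℕ) (B : Type) [Fintype B] (M : CoxeterMatrix B) (po : B → ℕ),
    Fintype.card B = n → (∀ i j, M i j ≠ 0) →
    (∀ (A : Type) [Finite A] [Nonempty A] (ι : A → B) (hι : Function.Injective ι),
      (∀ S : Set A, S.Nonempty → Sᶜ.Nonempty → ∃ x ∈ S, ∃ y, y ∉ S ∧ M (ι x) (ι y) ≠ 2) →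
        C (Sh (pull M ι hι) (po ∘ ι))) → C (Sh M po) := by
  intro n
  induction n using Nat.strong_induction_on with
  | _ n ih =>
    intro B _ M po hn h0 hpar
    classical
    rcases isEmpty_or_nonempty B with hB | hB
    · have hs : Subsingleton (Sh M po) := by
        refine ⟨fun a b => ?_⟩
        have h1 : ∀ a : Sh M po, a = 1 := by
          intro a
          induction a using Sh.induction with
          | one => rfl
          | gen i => exact hB.elim i
          | mul x y hx hy => rw [hx, hy, one_mul]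
          | inv x hx => rw [hx, inv_one]
        rw [h1 a, h1 b]
      exact hC.of_injective _ _ (1 : Sh M po →* Multiplicative ℤ)
        (fun a b _ => Subsingleton.elim a b) hC.int
    by_cases h : ∀ S : Set B, S.Nonempty → Sᶜ.Nonempty → ∃ x ∈ S, ∃ y, y ∉ S ∧ M x y ≠ 2
    · exact hpar B id Function.injective_id h
    · push Not at h
      obtain ⟨S, hS, hS', h2⟩ := h
      have key : ∀ T : Set B, Tᶜ.Nonempty →
          C (Sh (pull M (Subtype.val : T → B) (vinj T)) (po ∘ (Subtype.val : T → B))) := by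
        intro T hT
        refine ih (Fintype.card T) ?_ T _ _ rfl (fun i j => h0 i.1 j.1) ?_
        · obtain ⟨t, ht⟩ := hT
          rw [← hn]
          exact Fintype.card_subtype_lt ht
        · intro A _ _ ι hι h1
          exact hpar A (Subtype.val ∘ ι) ((vinj T).comp hι) h1
      refine prod_mem hC M po S (fun x hx y hy => h2 x hx y hy) (key S hS') (key Sᶜ ?_)
      rwa [compl_compl]

/-- **the reduction** -/
theorem main_irr (hC : ClosedE C)
    (hcox : ∀ (S : Type) [Finite S] (A : CoxeterMatrix S), C A.Group)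
    (B : Type) (M : CoxeterMatrix B) (po : B → ℕ) (ho : Adm M po) :
    C (Sh M po) ↔ ∀ (A : Type) [Finite A] [Nonempty A] (ι : A → B) (hι : Function.Injective ι),
      (∀ i j, M (ι i) (ι j) ≠ 0) →
      (∀ S : Set A, S.Nonempty → Sᶜ.Nonempty → ∃ x ∈ S, ∃ y, y ∉ S ∧ M (ι x) (ι y) ≠ 2) →
      C (Sh (pull M ι hι) (po ∘ ι)) := by
  rw [main_inf hC hcox B M po ho]
  constructor
  · intro h A _ _ ι hι h0 _
    exact h A ι hι h0
  · intro h A _ ι hι h0
    have := Fintype.ofFinite A
    refine irr hC.base (Fintype.card A) A (pull M ι hι) (po ∘ ι) rfl h0 ?_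
    intro A' _ _ κ hκ h1
    exact h A' (ι ∘ κ) (hι.comp hκ) (fun i j => h0 _ _) h1

end Run7.h952.AR
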