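import Pool.Agent.Run7.h952.AR.Walk
import Pool.Agent.Run7.h952.AR.Cof

/-!
# Homomorphisms which are injective on the pure parabolic subgroups
-/

set_option autoImplicit false
set_option linter.unusedSectionVars false
set_option linter.unusedSimpArgs false

namespace Run7.h952.AR

open Pool.Agent.Helper741 CoxeterSystem Pool.Agent.K7.H87.FJ6
open Pool.Agent.Y110.FJ
open Pool.Agent.Y462.SS (Closed Wr)

variable {C : ∀ (G : Type) [Group G], Prop}
variable {B : Type} [Fintype B] [DecidableEq B] {M : CoxeterMatrix B}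
variable {W : Type} [Group W] (cs : CoxeterSystem M W) {po : B → ℕ} (ho : Adm M po)

/-- the elements over the powers of `w`, with the exponent -/
def Gw (w : W) : Subgroup (Sh M po × Multiplicative ℤ) where
  carrier := {x | prj cs ho x.1 = w ^ x.2.toAdd}
  one_mem' := by
    show prj cs ho 1 = w ^ (0 : ℤ)
    rw [map_one, zpow_zero]
  mul_mem' := by
    intro a b ha hb
    have ha' : prj cs ho a.1 = w ^ a.2.toAdd := ha
    have hb' : prj cs ho b.1 = w ^ b.2.toAdd := hb
    show prj cs ho (a.1 * b.1) = w ^ (a.2 * b.2).toAdd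
    rw [map_mul, ha', hb', toAdd_mul, zpow_add]
  inv_mem' := by
    intro a ha
    have ha' : prj cs ho a.1 = w ^ a.2.toAdd := ha
    show prj cs ho (a.1)⁻¹ = w ^ (a.2⁻¹).toAdd
    rw [map_inv, ha', toAdd_inv, zpow_neg]

theorem Gw_mem {w : W} (x : Gw (po := po) cs ho w) :
    prj cs ho x.1.1 = w ^ x.1.2.toAdd := x.2

theorem key (hC : ClosedE C)
    (hind : ∀ Z : Finset B, Z.card < Fintype.card B → C (Sh (pull M (io Z) (io_inj Z)) (po ∘ io Z)))
    (X : Finset B) (hX : X.card < Fintype.card B) (u : W) (hu : ND (geo cs) u) :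
    ∃ (Q : Type) (_ : Group Q) (φ : Gw (po := po) cs ho (u ^ (Fintype.card B).factorial) →* Q),
      C Q ∧ ∀ (a : Sh (pull M (io X) (io_inj X)) (po ∘ io X))
        (h : (inc M po (io X) (io_inj X) a, (1 : Multiplicative ℤ)) ∈
          Gw (po := po) cs ho (u ^ (Fintype.card B).factorial)), φ ⟨_, h⟩ = 1 → a = 1 := by
  classical
  obtain ⟨Y, h, D, hYX, hh, r1, r2, hD, b, hb⟩ := rdata2 cs ho u X
  obtain ⟨K, hK⟩ : ∃ K : ℕ, K = (Fintype.card B).factorial := ⟨_, rfl⟩
  rw [← hK] at hb ⊢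
  have hK0 : (K : ℤ) ≠ 0 := by
    rw [hK]
    exact_mod_cast (Nat.factorial_pos _).ne'
  have hvex : ∀ n : ℤ, ∃ v : {v : W // Mn cs (io X) v},
      ∃ a : Sh (pull M (io X) (io_inj X)) (po ∘ io X),
        u ^ ((K : ℤ) * n) = v.1 * bar cs ho (io X) (io_inj X) a := by
    intro n
    obtain ⟨v, a, h1, h2⟩ := ex_min cs ho (io X) (io_inj X) (u ^ ((K : ℤ) * n))
    exact ⟨⟨v, h1⟩, a, h2⟩
  choose v hv using hvex
  obtain ⟨h0, hh0⟩ : ∃ h0 : {v : W // Mn cs (io Y) v}, h0 = ⟨h, hh⟩ := ⟨_, rfl⟩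
  have hz : ∀ k n : ℤ, (u ^ K) ^ k * u ^ ((K : ℤ) * n) = u ^ ((K : ℤ) * (n + k)) := by
    intro k n
    rw [← zpow_natCast, ← zpow_mul, ← zpow_add]
    congr 1
    ring
  have hy : ∀ k : ℤ, (u ^ K) ^ k * h = h * D ^ k * bar cs ho (io Y) (io_inj Y) (b ^ k) := by
    intro k
    have h1 : u ^ K = h * (D * bar cs ho (io Y) (io_inj Y) b) * h⁻¹ := by
      rw [← mul_assoc h, ← hb, mul_inv_cancel_right]
    have h2 : Commute D (bar cs ho (io Y) (io_inj Y) b) := (Fx.comm_bar ho hD b).symm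
    rw [h1, conj_zpow, h2.mul_zpow, map_zpow]
    group
  -- the action on the representatives
  have hmvX : ∀ (x : Gw (po := po) cs ho (u ^ K)) (n : ℤ),
      mv cs ho (io X) (io_inj X) x.1.1 (v n) = v (n + x.1.2.toAdd) := by
    intro x n
    obtain ⟨a, ha⟩ := hv n
    obtain ⟨a', ha'⟩ := hv (n + x.1.2.toAdd)
    refine mv_eq cs ho (io X) (io_inj X) (a' * a⁻¹) ?_
    have h1 : (v n).1 = u ^ ((K : ℤ) * n) * (bar cs ho (io X) (io_inj X) a)⁻¹ := by
      rw [ha, mul_inv_cancel_right]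
    rw [map_mul, map_inv, ← mul_assoc, ← ha', Gw_mem cs ho x, h1, ← mul_assoc, hz]
  have hmvY : ∀ x : Gw (po := po) cs ho (u ^ K),
      mv cs ho (io Y) (io_inj Y) x.1.1 h0 = trl cs (hD.zpow x.1.2.toAdd) h0 := by
    intro x
    refine mv_eq cs ho (io Y) (io_inj Y) (b ^ x.1.2.toAdd) ?_
    rw [Gw_mem cs ho x, hh0]
    exact hy _
  -- the homomorphisms
  let f : Gw (po := po) cs ho (u ^ K) →* Wr ℤ (Sh (pull M (io X) (io_inj X)) (po ∘ io X)) :=
    { toFun := fun x => ⟨fun n => cy cs ho (io X) (io_inj X) x.1.1 (v n),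
        Equiv.addRight x.1.2.toAdd⟩
      map_one' := by
        apply Wr.ext
        · funext n
          exact cy_one cs ho (io X) (io_inj X) (v n)
        · ext n
          show n + (0 : ℤ) = n
          rw [add_zero]
      map_mul' := by
        intro x y
        apply Wr.ext
        · funext n
          show cy cs ho (io X) (io_inj X) (x.1.1 * y.1.1) (v n) =
            cy cs ho (io X) (io_inj X) x.1.1 (v (n + y.1.2.toAdd)) *
              cy cs ho (io X) (io_inj X) y.1.1 (v n)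
          rw [cy_mul, hmvX]
        · ext n
          show n + (x.1.2 * y.1.2).toAdd = n + y.1.2.toAdd + x.1.2.toAdd
          rw [toAdd_mul]
          ring }
  let F : Gw (po := po) cs ho (u ^ K) →* Sh (pull M (io Y) (io_inj Y)) (po ∘ io Y) :=
    { toFun := fun x => cy cs ho (io Y) (io_inj Y) x.1.1 h0
      map_one' := cy_one cs ho (io Y) (io_inj Y) h0
      map_mul' := by
        intro x y
        show cy cs ho (io Y) (io_inj Y) (x.1.1 * y.1.1) h0 = _
        rw [cy_mul, hmvY, (cy_mv_trl cs ho (hD.zpow y.1.2.toAdd) x.1.1 h0).1] }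
  let j : Gw (po := po) cs ho (u ^ K) →* Multiplicative ℤ :=
    (MonoidHom.snd _ _).comp (Gw (po := po) cs ho (u ^ K)).subtype
  have hp : ∀ γ n, (f γ).p n = n + (j γ).toAdd := fun γ n => rfl
  have hfin : ∀ γ, j γ = 1 → F γ = 1 → {n | (f γ).s n ≠ 1}.Finite := by
    intro γ _ hF
    obtain ⟨S, hS, hS'⟩ := walk cs ho hu hK0 hh r1 r2 v hv γ.1.1
    apply hS.subset
    intro n hn
    by_contra hcon
    apply hn
    obtain ⟨h1, -⟩ := hS' n hcon
    have h2 : cy cs ho (io Y) (io_inj Y) γ.1.1 ⟨h, hh⟩ = 1 := by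
      rw [← hh0]
      exact hF
    rw [h2] at h1
    exact He_inj cs ho _ _ h1
  refine ⟨QC f F j, inferInstance, toQC f F j,
    cofinite f F j hp hfin hC (hind X hX) (hind Y (lt_of_le_of_lt hYX hX)), ?_⟩
  intro a ha h1
  have h2 := toQC_one f F j h1
  have h3 : cy cs ho (io X) (io_inj X) (inc M po (io X) (io_inj X) a) (v 0) = 1 :=
    congrFun (congrArg Wr.s h2) 0
  have h4 : v 0 = ⟨1, Mn_one cs (io X)⟩ := by
    obtain ⟨a', ha'⟩ := hv 0
    rw [mul_zero, zpow_zero] at ha'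
    exact Subtype.ext (Mn_unique cs ho (io X) (io_inj X) (v 0).2 (Mn_one cs (io X)) a' ha')
  rw [h4, cy_inc] at h3
  exact h3

end Run7.h952.AR
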