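import Pool.Agent.N24.TR.Tree
import Pool.Agent.Run7.h241.PTree

/-!
# Groups mapping to an amalgamated product
-/

set_option autoImplicit false

namespace Run7.h952.AR

open Monoid Monoid.PushoutI Run7.h241 Pool.Agent.Y110.FJ

variable {C : ∀ (G : Type) [Group G], Prop}

/-- A group `Γ` with a homomorphism `θ` to an amalgamated product is in the class if for each
conjugate of a factor there is a homomorphism to a group in the class which is injective on its
preimage. -/
theorem amalgam_local (hC : ClosedE C) {K : Type} [Group K] {G : Bool → Type} [∀ b, Group (G b)]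
    {φ : ∀ b, K →* G b} (hφ : ∀ b, Function.Injective (φ b)) {Γ : Type} [Group Γ]
    (θ : Γ →* PushoutI φ)
    (h : ∀ (b : Bool) (γ : PushoutI φ), ∃ (P : Type) (_ : Group P) (f : Γ →* P), C P ∧
      ∀ g : Γ, γ⁻¹ * θ g * γ ∈ GS φ b → f g = 1 → g = 1) : C Γ := by
  letI : MulAction Γ ((PushoutI φ ⧸ KS φ) ⊕
      ((PushoutI φ ⧸ GS φ true) ⊕ (PushoutI φ ⧸ GS φ false))) := MulAction.compHom _ θ
  obtain ⟨d⟩ : Nonempty (NormalWord.Transversal φ) := NormalWord.transversal_nonempty φ hφ
  have hT := bipP_tree d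
  refine Pool.Agent.N24.TR.tree_local (G := Γ) hC hT ?_ ?_
  · rintro g u v ⟨b, c, hc⟩
    refine ⟨b, θ g • c, ?_⟩
    have h1 : ∀ c : PushoutI φ ⧸ KS φ, nbP φ b (θ g • c) = θ g • nbP φ b c := by
      intro c
      cases b
      · show Sum.inr _ = Sum.inr _
        rw [qm_smul]
      · show Sum.inl _ = Sum.inl _
        rw [qm_smul]
    rcases hc with ⟨rfl, rfl⟩ | ⟨rfl, rfl⟩
    · left
      refine ⟨rfl, ?_⟩
      rw [h1]
      rfl
    · right
      refine ⟨rfl, ?_⟩
      rw [h1]
      rfl
  · have key : ∀ (b : Bool) (γ : PushoutI φ) (g : Γ), γ⁻¹ * θ g * γ ∈ KS φ →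
        γ⁻¹ * θ g * γ ∈ GS φ b := by
      intro b γ g hg
      have h2 := KS_le (φ := φ) b _ hg
      rwa [inv_one, one_mul, mul_one] at h2
    rintro (c | c | c)
    · induction c using QuotientGroup.induction_on with
      | H γ =>
        obtain ⟨P, _, f, hP, hf⟩ := h true γ
        refine ⟨P, inferInstance, f, hP, fun g hg => hf g (key true γ g ?_)⟩
        have h1 : ((θ g * γ : PushoutI φ) : PushoutI φ ⧸ KS φ) = (γ : PushoutI φ ⧸ KS φ) :=
          Sum.inl_injective hg
        rw [eq_comm, QuotientGroup.eq] at h1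
        rwa [mul_assoc]
    · induction c using QuotientGroup.induction_on with
      | H γ =>
        obtain ⟨P, _, f, hP, hf⟩ := h true γ
        refine ⟨P, inferInstance, f, hP, fun g hg => hf g ?_⟩
        have h1 : ((θ g * γ : PushoutI φ) : PushoutI φ ⧸ GS φ true) =
            (γ : PushoutI φ ⧸ GS φ true) := Sum.inl_injective (Sum.inr_injective hg)
        rw [eq_comm, QuotientGroup.eq] at h1
        rwa [mul_assoc]
    · induction c using QuotientGroup.induction_on with
      | H γ =>
        obtain ⟨P, _, f, hP, hf⟩ := h false γ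
        refine ⟨P, inferInstance, f, hP, fun g hg => hf g ?_⟩
        have h1 : ((θ g * γ : PushoutI φ) : PushoutI φ ⧸ GS φ false) =
            (γ : PushoutI φ ⧸ GS φ false) := Sum.inr_injective (Sum.inr_injective hg)
        rw [eq_comm, QuotientGroup.eq] at h1
        rwa [mul_assoc]

end Run7.h952.AR
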