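import Pool.Agent.Run7.h952.AR.Key
import Pool.Agent.Run7.h952.AR.Tree

/-!
# Reduction to the parabolic subgroups without infinite labels
-/

set_option autoImplicit false
set_option linter.unusedSectionVars false
set_option linter.unusedSimpArgs false

namespace Run7.h952.AR

open Pool.Agent.Helper741 CoxeterSystem Pool.Agent.K7.H87.FJ6
open Pool.Agent.Y110.FJ
open Pool.Agent.Y462.SS (Closed Wr)
open Monoid Monoid.PushoutI Run7.h241

variable {C : ∀ (G : Type) [Group G], Prop}

section incl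

variable {B : Type} [Fintype B] [DecidableEq B] (M : CoxeterMatrix B) (po : B → ℕ)

/-- the inclusion of parabolic subgroups -/
def incl {Z X : Finset B} (h : Z ⊆ X) : Sh (pull M (io Z) (io_inj Z)) (po ∘ io Z) →*
    Sh (pull M (io X) (io_inj X)) (po ∘ io X) :=
  Sh.lift (fun z => Sh.gen _ _ ⟨z.1, h z.2⟩)
    (fun i j => Sh.rel (M := pull M (io X) (io_inj X)) (p := po ∘ io X) ⟨i.1, h i.2⟩ ⟨j.1, h j.2⟩)
    (fun i => Sh.pow (M := pull M (io X) (io_inj X)) (p := po ∘ io X) ⟨i.1, h i.2⟩)

theorem incl_gen {Z X : Finset B} (h : Z ⊆ X) (z : Z) :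
    incl M po h (Sh.gen _ _ z) = Sh.gen _ _ ⟨z.1, h z.2⟩ := Sh.lift_gen _ _ _ _

theorem inc_incl {Z X : Finset B} (h : Z ⊆ X) (a : Sh (pull M (io Z) (io_inj Z)) (po ∘ io Z)) :
    inc M po (io X) (io_inj X) (incl M po h a) = inc M po (io Z) (io_inj Z) a := by
  have h1 : (inc M po (io X) (io_inj X)).comp (incl M po h) = inc M po (io Z) (io_inj Z) := by
    apply Sh.hom_ext
    intro i
    rw [MonoidHom.comp_apply, incl_gen, inc_gen, inc_gen]
  exact DFunLike.congr_fun h1 a

variable {M po}

theorem incl_injective (ho : Adm M po) {Z X : Finset B} (h : Z ⊆ X) :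
    Function.Injective (incl M po h) := by
  intro a b hab
  apply inc_injective ho (io Z) (io_inj Z)
  rw [← inc_incl M po h, ← inc_incl M po h, hab]

end incl

section split

variable {B : Type} [Fintype B] [DecidableEq B] {M : CoxeterMatrix B}
variable {W : Type} [Group W] (cs : CoxeterSystem M W) {po : B → ℕ} (ho : Adm M po)

/-- the two maximal parabolic subgroups -/
def Xb (s t : B) (b : Bool) : Finset B := Finset.univ.erase (cond b s t)

/-- their intersection -/
def Zb (s t : B) : Finset B := (Finset.univ.erase s).erase t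

theorem Zb_le (s t : B) (b : Bool) : Zb s t ⊆ Xb s t b := by
  intro x hx
  unfold Zb at hx
  rw [Finset.mem_erase, Finset.mem_erase] at hx
  cases b
  · exact Finset.mem_erase.2 ⟨hx.1, Finset.mem_univ _⟩
  · exact Finset.mem_erase.2 ⟨hx.2.1, Finset.mem_univ _⟩

theorem Xb_card (s t : B) (b : Bool) : (Xb s t b).card < Fintype.card B := by
  unfold Xb
  rw [Finset.card_erase_of_mem (Finset.mem_univ _), Finset.card_univ]
  exact Nat.sub_lt (Fintype.card_pos_iff.2 ⟨s⟩) one_pos

variable (M po) in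
/-- the maps of the amalgam -/
def phb (s t : B) (b : Bool) : Sh (pull M (io (Zb s t)) (io_inj _)) (po ∘ io (Zb s t)) →*
    Sh (pull M (io (Xb s t b)) (io_inj _)) (po ∘ io (Xb s t b)) := incl M po (Zb_le s t b)

/-- the splitting -/
theorem ex_split {s t : B} (hst : s ≠ t) (h0 : M s t = 0) :
    ∃ (θ : Sh M po →* PushoutI (phb M po s t)) (ψ : PushoutI (phb M po s t) →* Sh M po),
      (∀ g, ψ (θ g) = g) ∧ ∀ b y, ψ (PushoutI.of b y) = inc M po (io (Xb s t b)) (io_inj _) y := by
  have hcov : ∀ x, x ∈ Xb s t true ∨ x ∈ Xb s t false := by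
    intro x
    by_cases hx : x = s
    · right
      exact Finset.mem_erase.2 ⟨by rw [hx]; exact hst, Finset.mem_univ _⟩
    · left
      exact Finset.mem_erase.2 ⟨hx, Finset.mem_univ _⟩
  let gg : B → PushoutI (phb M po s t) := fun x =>
    if h : x ∈ Xb s t true then PushoutI.of true (Sh.gen _ _ ⟨x, h⟩) else
      PushoutI.of false (Sh.gen _ _ ⟨x, (hcov x).resolve_left h⟩)
  have hgg : ∀ b x (h : x ∈ Xb s t b), gg x = PushoutI.of b (Sh.gen _ _ ⟨x, h⟩) := by
    intro b x h
    cases b with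
    | true => exact dif_pos h
    | false =>
      by_cases h1 : x ∈ Xb s t true
      · have h2 : gg x = PushoutI.of true (Sh.gen _ _ ⟨x, h1⟩) := dif_pos h1
        rw [h2]
        have h3 : x ∈ Zb s t := by
          refine Finset.mem_erase.2 ⟨(Finset.mem_erase.1 h).1, ?_⟩
          exact h1
        have h4 : ∀ b, PushoutI.of b (phb M po s t b (Sh.gen _ _ ⟨x, h3⟩)) =
            PushoutI.base (phb M po s t) (Sh.gen _ _ ⟨x, h3⟩) := fun b =>
          PushoutI.of_apply_eq_base _ _ _
        have h5 := (h4 true).trans (h4 false).symm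
        unfold phb at h5
        rw [incl_gen, incl_gen] at h5
        exact h5
      · exact dif_neg h1
  have hM : ∀ i j, M i j = 0 ∨ ∃ b, i ∈ Xb s t b ∧ j ∈ Xb s t b := by
    intro i j
    by_cases h1 : i ≠ s ∧ j ≠ s
    · exact Or.inr ⟨true, Finset.mem_erase.2 ⟨h1.1, Finset.mem_univ _⟩,
        Finset.mem_erase.2 ⟨h1.2, Finset.mem_univ _⟩⟩
    by_cases h2 : i ≠ t ∧ j ≠ t
    · exact Or.inr ⟨false, Finset.mem_erase.2 ⟨h2.1, Finset.mem_univ _⟩,
        Finset.mem_erase.2 ⟨h2.2, Finset.mem_univ _⟩⟩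
    left
    rw [not_and_or, not_not, not_not] at h1 h2
    rcases h1 with rfl | rfl
    · rcases h2 with h2 | rfl
      · exact absurd h2 hst
      · exact h0
    · rcases h2 with rfl | h2
      · rw [M.symmetric]
        exact h0
      · exact absurd h2 hst
  have hrel : ∀ i j, alt (gg i) (gg j) (M i j) = alt (gg j) (gg i) (M i j) := by
    intro i j
    rcases hM i j with h | ⟨b, hi, hj⟩
    · rw [h, alt_zero, alt_zero]
    · rw [hgg b i hi, hgg b j hj, ← map_alt, ← map_alt]
      congr 1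
      exact Sh.rel (M := pull M (io (Xb s t b)) (io_inj _)) (p := po ∘ io (Xb s t b)) ⟨i, hi⟩ ⟨j, hj⟩
  have hex : ∀ i, ∃ b, i ∈ Xb s t b := by
    intro i
    rcases hcov i with h | h
    · exact ⟨_, h⟩
    · exact ⟨_, h⟩
  have hpow : ∀ i, gg i ^ po i = 1 := by
    intro i
    obtain ⟨b, hb⟩ := hex i
    rw [hgg b i hb, ← map_pow]
    have h1 := Sh.pow (M := pull M (io (Xb s t b)) (io_inj _)) (p := po ∘ io (Xb s t b)) ⟨i, hb⟩
    have h2 : Sh.gen (pull M (io (Xb s t b)) (io_inj _)) (po ∘ io (Xb s t b)) ⟨i, hb⟩ ^ po i = 1 := h1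
    rw [h2, map_one]
  have hcomp : ∀ b, (inc M po (io (Xb s t b)) (io_inj _)).comp (phb M po s t b) =
      inc M po (io (Zb s t)) (io_inj _) := fun b =>
    MonoidHom.ext fun z => inc_incl M po (Zb_le s t b) z
  refine ⟨Sh.lift gg hrel hpow,
    PushoutI.lift (fun b => inc M po (io (Xb s t b)) (io_inj _))
      (inc M po (io (Zb s t)) (io_inj _)) hcomp, ?_, ?_⟩
  · intro g
    have h1 : (PushoutI.lift (fun b => inc M po (io (Xb s t b)) (io_inj _))
        (inc M po (io (Zb s t)) (io_inj _)) hcomp).comp (Sh.lift gg hrel hpow) =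
        MonoidHom.id _ := by
      apply Sh.hom_ext
      intro i
      obtain ⟨b, hb⟩ := hex i
      rw [MonoidHom.comp_apply, Sh.lift_gen, hgg b i hb, PushoutI.lift_of, inc_gen]
      rfl
    exact DFunLike.congr_fun h1 g
  · intro b y
    exact PushoutI.lift_of _ _ _ _

/-- nondegenerate elements -/
theorem Gw_ND (hC : ClosedE C)
    (hind : ∀ Z : Finset B, Z.card < Fintype.card B → C (Sh (pull M (io Z) (io_inj Z)) (po ∘ io Z)))
    {s t : B} (hst : s ≠ t) (h0 : M s t = 0) (u : W) (hu : ND (geo cs) u) :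
    C (Gw (po := po) cs ho (u ^ (Fintype.card B).factorial)) := by
  obtain ⟨θ, ψ, h1, h2⟩ := ex_split (po := po) hst h0
  refine amalgam_local hC (φ := phb M po s t) (fun b => incl_injective ho (Zb_le s t b))
    (θ.comp ((MonoidHom.fst _ _).comp (Gw (po := po) cs ho
      (u ^ (Fintype.card B).factorial)).subtype)) ?_
  intro b γ
  obtain ⟨a, ha⟩ : ∃ a, a = ψ γ := ⟨_, rfl⟩
  obtain ⟨u', hu'⟩ : ∃ u', u' = (prj cs ho a)⁻¹ * u * prj cs ho a := ⟨_, rfl⟩
  have hund : ND (geo cs) u' := by
    have h3 := hu.conj (prj cs ho a)⁻¹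
    rwa [inv_inv, ← hu'] at h3
  obtain ⟨Q, _, φ, hQ, hφ⟩ := key cs ho hC hind (Xb s t b) (Xb_card s t b) u' hund
  let cj : Gw (po := po) cs ho (u ^ (Fintype.card B).factorial) →*
      Gw (po := po) cs ho (u' ^ (Fintype.card B).factorial) :=
    { toFun := fun x => ⟨(a⁻¹ * x.1.1 * a, x.1.2), by
        show prj cs ho (a⁻¹ * x.1.1 * a) = (u' ^ (Fintype.card B).factorial) ^ x.1.2.toAdd
        have h4 : u' ^ (Fintype.card B).factorial =
            (prj cs ho a)⁻¹ * u ^ (Fintype.card B).factorial * prj cs ho a := by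
          have h5 := conj_pow (i := (Fintype.card B).factorial) (a := (prj cs ho a)⁻¹) (b := u)
          rw [inv_inv] at h5
          rw [hu', h5]
        have h6 := conj_zpow (i := x.1.2.toAdd) (a := (prj cs ho a)⁻¹)
          (b := u ^ (Fintype.card B).factorial)
        rw [inv_inv] at h6
        rw [h4, h6, map_mul, map_mul, map_inv, Gw_mem cs ho x]⟩
      map_one' := by
        apply Subtype.ext
        refine Prod.ext ?_ rfl
        show a⁻¹ * 1 * a = 1
        rw [mul_one, inv_mul_cancel]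
      map_mul' := by
        intro x y
        apply Subtype.ext
        refine Prod.ext ?_ rfl
        show a⁻¹ * (x.1.1 * y.1.1) * a = (a⁻¹ * x.1.1 * a) * (a⁻¹ * y.1.1 * a)
        group }
  refine ⟨Q × Multiplicative ℤ, inferInstance, (φ.comp cj).prod
    ((MonoidHom.snd _ _).comp (Gw (po := po) cs ho (u ^ (Fintype.card B).factorial)).subtype),
    hC.base.prod _ _ hQ hC.base.int, ?_⟩
  rintro g ⟨y, hy⟩ hg
  have h3 : φ (cj g) = 1 := congrArg Prod.fst hg
  have h4 : g.1.2 = 1 := congrArg Prod.snd hg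
  have h5 : inc M po (io (Xb s t b)) (io_inj _) y = a⁻¹ * g.1.1 * a := by
    have h6 := congrArg ψ hy
    rw [h2, map_mul, map_mul, map_inv, ← ha] at h6
    rw [h6]
    congr 2
    exact h1 g.1.1
  have hcj : cj g = ⟨(inc M po (io (Xb s t b)) (io_inj _) y, 1), by
      have h7 := (cj g).2
      have h8 : (cj g).1 = (inc M po (io (Xb s t b)) (io_inj _) y, 1) :=
        Prod.ext h5.symm h4
      rwa [h8] at h7⟩ := Subtype.ext (Prod.ext h5.symm h4)
  rw [hcj] at h3
  have h6 := hφ y _ h3
  rw [h6, map_one] at h5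
  apply Subtype.ext
  refine Prod.ext ?_ h4
  have h7 : g.1.1 = a * (a⁻¹ * g.1.1 * a) * a⁻¹ := by group
  show g.1.1 = 1
  rw [h7, ← h5]
  group

/-- all elements -/
theorem Gw_all (hC : ClosedE C)
    (hind : ∀ Z : Finset B, Z.card < Fintype.card B → C (Sh (pull M (io Z) (io_inj Z)) (po ∘ io Z)))
    {s t : B} (hst : s ≠ t) (h0 : M s t = 0) (w : W) : C (Gw (po := po) cs ho w) := by
  obtain ⟨m, hm, hnd⟩ := exists_ND (ρ := geo cs) w
  have h1 := Gw_ND cs ho hC hind hst h0 (w ^ m) hnd
  rw [← pow_mul] at h1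
  obtain ⟨N, hN⟩ : ∃ N : ℕ, N = m * (Fintype.card B).factorial := ⟨_, rfl⟩
  rw [← hN] at h1
  have hN0 : N ≠ 0 := by
    rw [hN]
    exact (Nat.mul_pos hm (Nat.factorial_pos _)).ne'
  have : NeZero N := ⟨hN0⟩
  let e : Gw (po := po) cs ho (w ^ N) →* Gw (po := po) cs ho w :=
    { toFun := fun x => ⟨(x.1.1, Multiplicative.ofAdd ((N : ℤ) * x.1.2.toAdd)), by
        show prj cs ho x.1.1 = w ^ ((N : ℤ) * x.1.2.toAdd)
        rw [Gw_mem cs ho x, zpow_mul, zpow_natCast]⟩
      map_one' := by
        apply Subtype.ext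
        refine Prod.ext rfl ?_
        show Multiplicative.ofAdd ((N : ℤ) * 0) = 1
        rw [mul_zero]
        rfl
      map_mul' := by
        intro x y
        apply Subtype.ext
        refine Prod.ext rfl ?_
        show Multiplicative.ofAdd ((N : ℤ) * (x.1.2 * y.1.2).toAdd) =
          Multiplicative.ofAdd ((N : ℤ) * x.1.2.toAdd) * Multiplicative.ofAdd ((N : ℤ) * y.1.2.toAdd)
        rw [toAdd_mul, mul_add, ofAdd_add] }
  have he : Function.Injective e := by
    intro x y hxy
    have h3 : x.1.1 = y.1.1 := congrArg (fun z => z.1.1) hxy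
    have h4 : (N : ℤ) * x.1.2.toAdd = (N : ℤ) * y.1.2.toAdd := congrArg (fun z => z.1.2) hxy
    have h5 : x.1.2.toAdd = y.1.2.toAdd :=
      mul_left_cancel₀ (by exact_mod_cast hN0) h4
    exact Subtype.ext (Prod.ext h3 h5)
  let r : Gw (po := po) cs ho w →* Multiplicative (ZMod N) :=
    (AddMonoidHom.toMultiplicative (Int.castAddHom (ZMod N))).comp
      ((MonoidHom.snd _ _).comp (Gw (po := po) cs ho w).subtype)
  have hle : r.ker ≤ e.range := by
    intro x hx
    have h2 : ((x.1.2.toAdd : ℤ) : ZMod N) = 0 := hx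
    rw [ZMod.intCast_zmod_eq_zero_iff_dvd] at h2
    obtain ⟨k, hk⟩ := h2
    refine ⟨⟨(x.1.1, Multiplicative.ofAdd k), ?_⟩, ?_⟩
    · show prj cs ho x.1.1 = (w ^ N) ^ k
      rw [Gw_mem cs ho x, hk, zpow_mul, zpow_natCast]
    · apply Subtype.ext
      refine Prod.ext rfl ?_
      show Multiplicative.ofAdd ((N : ℤ) * k) = x.1.2
      rw [← hk]
      rfl
  have hfi : (e.range).FiniteIndex := by
    have h2 : r.ker.FiniteIndex := inferInstance
    exact Subgroup.finiteIndex_of_le hle
  refine hC.base.finiteIndex _ e.range hfi ?_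
  have e' : Gw (po := po) cs ho (w ^ N) ≃* e.range := MonoidHom.ofInjective he
  exact hC.base.of_injective _ _ e'.symm.toMonoidHom e'.symm.injective h1

include cs ho in
/-- the class contains the group if it contains the proper parabolic subgroups -/
theorem split_mem (hC : ClosedE C) (hW : C W)
    (hind : ∀ Z : Finset B, Z.card < Fintype.card B → C (Sh (pull M (io Z) (io_inj Z)) (po ∘ io Z)))
    {s t : B} (hst : s ≠ t) (h0 : M s t = 0) : C (Sh M po) := by
  obtain ⟨N, hN⟩ : ∃ N : Subgroup (Sh M po), N = (prj cs ho).ker := ⟨_, rfl⟩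
  have hNn : N.Normal := by rw [hN]; infer_instance
  have hNm : ∀ x ∈ N, prj cs ho x = 1 := by
    intro x hx
    rwa [hN, MonoidHom.mem_ker] at hx
  refine Pool.Agent.Y529.FJ.t_ext C hC (Sh M po) N ?_ ?_ ?_
  · let i : N →* Gw (po := po) cs ho (1 : W) :=
      { toFun := fun x => ⟨(x.1, 1), by
          show prj cs ho x.1 = (1 : W) ^ (0 : ℤ)
          rw [hNm x.1 x.2, zpow_zero]⟩
        map_one' := rfl
        map_mul' := fun _ _ => rfl }
    refine hC.base.of_injective _ _ i ?_ (Gw_all cs ho hC hind hst h0 1)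
    intro x y hxy
    exact Subtype.ext (congrArg (fun z => z.1.1) hxy)
  · subst hN
    exact hC.base.of_injective _ _ (QuotientGroup.kerLift (prj cs ho))
      (QuotientGroup.kerLift_injective _) hW
  · intro g hg
    let pr1 : Gw (po := po) cs ho (prj cs ho g) →* Sh M po :=
      (MonoidHom.fst _ _).comp (Gw (po := po) cs ho (prj cs ho g)).subtype
    have hinj : Function.Injective pr1 := by
      rw [injective_iff_map_eq_one]
      intro x hx
      have h1 : x.1.1 = 1 := hx
      have h2 := Gw_mem cs ho x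
      rw [h1, map_one] at h2
      have h3 : x.1.2.toAdd = 0 := by
        by_contra hne
        have h4 : prj cs ho g ^ x.1.2.toAdd.natAbs = 1 := by
          rcases Int.natAbs_eq x.1.2.toAdd with h5 | h5
          · rw [← zpow_natCast, ← h5]
            exact h2.symm
          · rw [← zpow_natCast, ← inv_inj, ← zpow_neg, ← h5, inv_one]
            exact h2.symm
        refine hg x.1.2.toAdd.natAbs (Int.natAbs_pos.2 hne) ?_
        rw [hN, MonoidHom.mem_ker, map_pow]
        exact h4
      exact Subtype.ext (Prod.ext h1 h3)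
    have hle : N ⊔ Subgroup.zpowers g ≤ pr1.range := by
      refine sup_le (fun x hx => ?_) ?_
      · refine ⟨⟨(x, 1), ?_⟩, rfl⟩
        show prj cs ho x = prj cs ho g ^ (0 : ℤ)
        rw [hNm x hx, zpow_zero]
      · rw [Subgroup.zpowers_le]
        refine ⟨⟨(g, Multiplicative.ofAdd 1), ?_⟩, rfl⟩
        show prj cs ho g = prj cs ho g ^ (1 : ℤ)
        rw [zpow_one]
    have e' : Gw (po := po) cs ho (prj cs ho g) ≃* pr1.range := MonoidHom.ofInjective hinj
    exact hC.base.of_injective _ _ (e'.symm.toMonoidHom.comp (Subgroup.inclusion hle))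
      (e'.symm.injective.comp (Subgroup.inclusion_injective hle))
      (Gw_all cs ho hC hind hst h0 (prj cs ho g))

end split

/-- **the reduction** -/
theorem main (hC : ClosedE C)
    (hcox : ∀ (S : Type) [Finite S] (A : CoxeterMatrix S), C A.Group) :
    ∀ (n : ℕ) (B : Type) [Fintype B] (M : CoxeterMatrix B) (po : B → ℕ), Adm M po →
      Fintype.card B = n →
      (∀ (A : Type) [Finite A] (ι : A → B) (hι : Function.Injective ι),
        (∀ i j, M (ι i) (ι j) ≠ 0) → C (Sh (pull M ι hι) (po ∘ ι))) → C (Sh M po) := by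
  intro n
  induction n using Nat.strong_induction_on with
  | _ n ih =>
    intro B _ M po ho hn hpar
    classical
    by_cases h : ∃ s t, M s t = 0
    · obtain ⟨s, t, h0⟩ := h
      have hst : s ≠ t := by
        rintro rfl
        rw [M.diagonal] at h0
        exact one_ne_zero h0
      refine split_mem M.toCoxeterSystem ho hC (hcox B M) (fun Z hZ => ?_) hst h0
      refine ih (Fintype.card Z) (by rw [Fintype.card_coe]; omega) Z _ _
        (ho.pull (io Z) (io_inj Z)) rfl ?_
      intro A _ ι hι h1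
      exact hpar A (io Z ∘ ι) ((io_inj Z).comp hι) h1
    · push Not at h
      exact hpar B id Function.injective_id h

end Run7.h952.AR
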