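import Pool.Agent.N137.AO.Nd

/-!
# Nondegenerate elements of linear groups
-/

set_option autoImplicit false

namespace Run7.h952.AR

open Filter Polynomial Pool.Agent.N137.AO

variable {E : Type} [AddCommGroup E] [Module ℝ E]
variable {W : Type} [Group W] (ρ : W →* Module.End ℝ E)

/-- Along the powers of `w`, the vanishing of a coordinate holds always or finitely often. -/
def ND (w : W) : Prop := ∀ (φ : E →ₗ[ℝ] ℝ) (z : E),
  (∀ n : ℤ, φ (ρ (w ^ n) z) = 0) ∨ {n : ℤ | φ (ρ (w ^ n) z) = 0}.Finite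

/-- the one-sided form -/
def Dich (w : W) : Prop := ∀ (φ : E →ₗ[ℝ] ℝ) (z : E),
  (∀ n : ℕ, φ (ρ (w ^ n) z) = 0) ∨ ∃ N : ℕ, ∀ n, N ≤ n → φ (ρ (w ^ n) z) ≠ 0

variable {ρ}

theorem Dich.pow {w : W} (h : Dich ρ w) {k : ℕ} (hk : 0 < k) : Dich ρ (w ^ k) := by
  intro φ z
  rcases h φ z with h1 | ⟨N, h1⟩
  · left
    intro n
    rw [← pow_mul]
    exact h1 _
  · right
    refine ⟨N, fun n hn => ?_⟩
    rw [← pow_mul]
    exact h1 _ (hn.trans (Nat.le_mul_of_pos_left n hk))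

theorem ND.of_dich {w : W} (h : Dich ρ w) (h' : Dich ρ w⁻¹) : ND ρ w := by
  have hall : ∀ (u : W), Dich ρ u → ∀ (φ : E →ₗ[ℝ] ℝ) (z : E),
      (∀ n : ℕ, φ (ρ (u ^ n) z) = 0) → ∀ n : ℤ, φ (ρ (u ^ n) z) = 0 := by
    intro u hu φ z h0 n
    obtain ⟨k, l, rfl⟩ : ∃ k l : ℕ, n = (k : ℤ) - l := by
      rcases le_total 0 n with hn | hn
      · exact ⟨n.toNat, 0, by simp [hn]⟩
      · exact ⟨0, (-n).toNat, by simp [hn]⟩
    have h2 : ∀ m : ℕ, φ (ρ (u ^ m) (ρ ((u⁻¹) ^ l) z)) = φ (ρ (u ^ ((m : ℤ) - l)) z) := by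
      intro m
      rw [← Module.End.mul_apply, ← map_mul, zpow_sub, zpow_natCast, zpow_natCast, inv_pow]
    rcases hu φ (ρ ((u⁻¹) ^ l) z) with h3 | ⟨N, h3⟩
    · rw [← h2]
      exact h3 k
    · exfalso
      apply h3 (N + l) (Nat.le_add_right _ _)
      rw [h2]
      have : ((N + l : ℕ) : ℤ) - l = (N : ℤ) := by push_cast; ring
      rw [this, zpow_natCast]
      exact h0 N
  intro φ z
  rcases h φ z with h1 | ⟨N, h1⟩
  · exact Or.inl (hall w h φ z h1)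
  rcases h' φ z with h2 | ⟨N', h2⟩
  · left
    intro n
    have h3 := hall w⁻¹ h' φ z h2 (-n)
    rwa [inv_zpow, zpow_neg, inv_inv] at h3
  · right
    apply (Set.finite_Icc (-(N' : ℤ)) (N : ℤ)).subset
    intro n hn
    have hn' : φ (ρ (w ^ n) z) = 0 := hn
    rw [Set.mem_Icc]
    by_contra hcon
    rcases le_total 0 n with h0 | h0
    · obtain ⟨k, rfl⟩ := Int.eq_ofNat_of_zero_le h0
      refine h1 k ?_ (by rwa [zpow_natCast] at hn')
      omega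
    · obtain ⟨k, hk⟩ := Int.eq_ofNat_of_zero_le (show 0 ≤ -n by omega)
      have hk' : n = -(k : ℤ) := by omega
      rw [hk', zpow_neg, zpow_natCast, ← inv_pow] at hn'
      exact h2 k (by omega) hn'

theorem ND.zpow {w : W} (h : ND ρ w) {k : ℤ} (hk : k ≠ 0) : ND ρ (w ^ k) := by
  intro φ z
  rcases h φ z with h1 | h1
  · left
    intro n
    rw [← zpow_mul]
    exact h1 _
  · right
    have h2 : {n : ℤ | φ (ρ ((w ^ k) ^ n) z) = 0} = (fun n : ℤ => k * n) ⁻¹'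
        {n : ℤ | φ (ρ (w ^ n) z) = 0} := by
      ext n
      simp only [Set.mem_ofPred_eq, Set.mem_preimage, zpow_mul]
    rw [h2]
    exact h1.preimage (fun a _ b _ h3 => mul_left_cancel₀ hk h3)

theorem ND.conj {w : W} (h : ND ρ w) (a : W) : ND ρ (a * w * a⁻¹) := by
  intro φ z
  have h2 : ∀ n : ℤ, φ (ρ ((a * w * a⁻¹) ^ n) z) = (φ.comp (ρ a)) (ρ (w ^ n) (ρ a⁻¹ z)) := by
    intro n
    rw [conj_zpow, map_mul, map_mul]
    rfl
  simp only [h2]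
  exact h (φ.comp (ρ a)) (ρ a⁻¹ z)

theorem exists_dich [FiniteDimensional ℝ E] (w : W) : ∃ m : ℕ, 0 < m ∧ Dich ρ (w ^ m) := by
  classical
  obtain ⟨P, hP⟩ : ∃ P : ℝ[X], P = (ρ w).charpoly := ⟨_, rfl⟩
  obtain ⟨Q, hQ⟩ : ∃ Q : ℂ[X], Q = P.map (algebraMap ℝ ℂ) := ⟨_, rfl⟩
  have hPm : P.Monic := hP ▸ LinearMap.charpoly_monic _
  have hQm : Q.Monic := hQ ▸ hPm.map _
  obtain ⟨t, ht⟩ : ∃ t : Multiset ℂ, t = Q.roots := ⟨_, rfl⟩
  have hQt : pol t = Q := by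
    rw [ht, pol]
    exact ((IsAlgClosed.splits Q).eq_prod_roots_of_monic hQm).symm
  have h0 : (0 : ℂ) ∉ t := by
    intro h1
    rw [ht, mem_roots hQm.ne_zero, IsRoot.def, ← coeff_zero_eq_eval_zero, hQ, coeff_map] at h1
    have h2 : P.coeff 0 = 0 := (algebraMap ℝ ℂ).injective (by rw [h1, map_zero])
    have h3 := LinearMap.det_eq_sign_charpoly_coeff (ρ w)
    rw [← hP, h2, mul_zero] at h3
    have h4 : LinearMap.det (ρ w) * LinearMap.det (ρ w⁻¹) = 1 := by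
      rw [← map_mul, ← map_mul, mul_inv_cancel, map_one, map_one]
    rw [h3, zero_mul] at h4
    exact zero_ne_one h4
  -- the exponent
  have hex : ∀ p : ℂ × ℂ, ∃ b : ℕ, 0 < b ∧ ((∃ c : ℕ, 0 < c ∧ p.1 ^ c = p.2 ^ c) →
      p.1 ^ b = p.2 ^ b) := by
    intro p
    by_cases h : ∃ c : ℕ, 0 < c ∧ p.1 ^ c = p.2 ^ c
    · obtain ⟨c, hc, h1⟩ := h
      exact ⟨c, hc, fun _ => h1⟩
    · exact ⟨1, one_pos, fun h1 => absurd h1 h⟩
  choose bb hbb hbb' using hex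
  obtain ⟨m, hm⟩ : ∃ m : ℕ, m = ∏ p ∈ t.toFinset ×ˢ t.toFinset, bb p := ⟨_, rfl⟩
  have hm0 : 0 < m := by
    rw [hm]
    exact Finset.prod_pos fun p _ => hbb p
  have hpair : ∀ ν ∈ t, ∀ ν' ∈ t, (∃ c : ℕ, 0 < c ∧ ν ^ c = ν' ^ c) → ν ^ m = ν' ^ m := by
    intro ν hν ν' hν' hc
    have h1 := hbb' (ν, ν') hc
    have h2 : bb (ν, ν') ∣ m := by
      rw [hm]
      exact Finset.dvd_prod_of_mem _ (Finset.mk_mem_product (Multiset.mem_toFinset.2 hν)
        (Multiset.mem_toFinset.2 hν'))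
    obtain ⟨c, hc'⟩ := h2
    rw [hc', pow_mul, pow_mul, h1]
  refine ⟨m, hm0, fun φ z => ?_⟩
  obtain ⟨e, he⟩ : ∃ e : ℕ → ℂ, e = fun n => ((φ (ρ (w ^ n) z) : ℝ) : ℂ) := ⟨_, rfl⟩
  have hk : aeval (sh : Module.End ℂ (ℕ → ℂ)) (pol t) e = 0 := by
    rw [hQt]
    funext n
    rw [aeval_sh_apply Q (Q.natDegree + 1) (Nat.lt_succ_self _)]
    have h1 : ∀ i, Q.coeff i * e (n + i) =
        (((P.coeff i * φ (ρ (w ^ (n + i)) z) : ℝ)) : ℂ) := by
      intro i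
      rw [hQ, coeff_map, he]
      push_cast
      rfl
    rw [Finset.sum_congr rfl fun i _ => h1 i, ← Complex.ofReal_sum]
    have h2 : ∑ i ∈ Finset.range (Q.natDegree + 1), P.coeff i * φ (ρ (w ^ (n + i)) z) =
        φ ((aeval (ρ w) P) (ρ (w ^ n) z)) := by
      have h3 : Q.natDegree = P.natDegree := by rw [hQ, natDegree_map]
      rw [h3, aeval_eq_sum_range, LinearMap.sum_apply, map_sum]
      refine Finset.sum_congr rfl fun i _ => ?_
      rw [LinearMap.smul_apply, map_smul, smul_eq_mul, ← map_pow, ← Module.End.mul_apply,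
        ← map_mul, ← pow_add, add_comm n i]
    rw [h2, hP, LinearMap.aeval_self_charpoly, LinearMap.zero_apply, map_zero, Complex.ofReal_zero]
    rfl
  have hk' := cls_killed m 0 t e hk
  by_cases hz : cls m 0 e = 0
  · left
    intro n
    have h1 := congrFun hz n
    rw [cls_apply, he, add_zero, Pi.zero_apply] at h1
    rw [← pow_mul]
    have h2 : ((φ (ρ (w ^ (m * n)) z) : ℝ) : ℂ) = 0 := h1
    exact Complex.ofReal_eq_zero.1 h2
  · right
    have hnd := nd_zero (t.map (fun μ => μ ^ m)) (by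
      intro h1
      obtain ⟨ν, hν, h2⟩ := Multiset.mem_map.1 h1
      have h3 : ν = 0 := (pow_eq_zero_iff hm0.ne').1 h2
      exact h0 (h3 ▸ hν)) (by
      intro μ hμ μ' hμ' b hb h1
      obtain ⟨ν, hν, rfl⟩ := Multiset.mem_map.1 hμ
      obtain ⟨ν', hν', rfl⟩ := Multiset.mem_map.1 hμ'
      refine hpair ν hν ν' hν' ⟨m * b, Nat.mul_pos hm0 (Nat.pos_of_ne_zero hb), ?_⟩
      rw [pow_mul, pow_mul]
      exact h1) (cls m 0 e) hk' hz
    obtain ⟨N, hN⟩ := eventually_atTop.1 hnd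
    refine ⟨N, fun n hn h1 => hN n hn ?_⟩
    rw [cls_apply, he, add_zero]
    show ((φ (ρ (w ^ (m * n)) z) : ℝ) : ℂ) = 0
    rw [pow_mul, h1, Complex.ofReal_zero]

theorem exists_ND [FiniteDimensional ℝ E] (w : W) : ∃ m : ℕ, 0 < m ∧ ND ρ (w ^ m) := by
  obtain ⟨m, hm, h⟩ := exists_dich (ρ := ρ) w
  obtain ⟨m', hm', h'⟩ := exists_dich (ρ := ρ) w⁻¹
  refine ⟨m * m', Nat.mul_pos hm hm', ND.of_dich ?_ ?_⟩
  · rw [pow_mul]
    exact h.pow hm'
  · rw [← inv_pow, mul_comm, pow_mul]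
    exact h'.pow hm

end Run7.h952.AR
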