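import Pool.Agent.Run7.h952.AR.Dbl
import Pool.Agent.Run7.h952.AR.Sml

/-!
# Comparison of two cocycles along a word
-/

set_option autoImplicit false
set_option linter.unusedSectionVars false
set_option linter.unusedSimpArgs false

namespace Run7.h952.AR

open Pool.Agent.Helper741 CoxeterSystem Pool.Agent.K7.H87.FJ6

variable {B : Type} [Fintype B] [DecidableEq B] {M : CoxeterMatrix B}
variable {W : Type} [Group W] (cs : CoxeterSystem M W) {po : B → ℕ} (ho : Adm M po)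

section tr

variable {Y : Finset B} {D : W} (hD : Fx cs Y D)

/-- translation by `D` -/
def trl (v : {v : W // Mn cs (io Y) v}) : {v : W // Mn cs (io Y) v} := ⟨v.1 * D, hD.Mn v.2⟩

include hD in
theorem trl_out (b : B) (v : W) : (∃ x : Y, cs.simple b * (v * D) = (v * D) * cs.simple (io Y x)) ↔
    ∃ x : Y, cs.simple b * v = v * cs.simple (io Y x) := by
  constructor
  · rintro ⟨x, hx⟩
    refine ⟨x, ?_⟩
    rw [mul_assoc, ← hD.comm x.2, ← mul_assoc, ← mul_assoc] at hx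
    exact mul_right_cancel hx
  · rintro ⟨x, hx⟩
    refine ⟨x, ?_⟩
    rw [mul_assoc, ← hD.comm x.2, ← mul_assoc, ← mul_assoc, hx]

theorem cy_mv_gen_trl (b : B) (v : {v : W // Mn cs (io Y) v}) :
    cy cs ho (io Y) (io_inj Y) (Sh.gen M po b) (trl cs hD v) =
      cy cs ho (io Y) (io_inj Y) (Sh.gen M po b) v ∧
    mv cs ho (io Y) (io_inj Y) (Sh.gen M po b) (trl cs hD v) =
      trl cs hD (mv cs ho (io Y) (io_inj Y) (Sh.gen M po b) v) := by
  by_cases h : ∃ x : Y, cs.simple b * v.1 = v.1 * cs.simple (io Y x)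
  · obtain ⟨x, hx⟩ := h
    have hx' : cs.simple b * (trl cs hD v).1 = (trl cs hD v).1 * cs.simple (io Y x) := by
      show cs.simple b * (v.1 * D) = (v.1 * D) * cs.simple (io Y x)
      rw [mul_assoc, ← hD.comm x.2, ← mul_assoc, ← mul_assoc, hx]
    obtain ⟨h1, h2⟩ := gen_pos cs ho (io Y) (io_inj Y) hx
    obtain ⟨h1', h2'⟩ := gen_pos cs ho (io Y) (io_inj Y) hx'
    exact ⟨h1'.trans h1.symm, by rw [h2', h2]⟩
  · have h' : ¬ ∃ x : Y, cs.simple b * (trl cs hD v).1 = (trl cs hD v).1 * cs.simple (io Y x) :=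
      fun h1 => h ((trl_out cs hD b v.1).1 h1)
    obtain ⟨h1, h2⟩ := gen_neg cs ho (io Y) (io_inj Y) h
    obtain ⟨h1', h2'⟩ := gen_neg cs ho (io Y) (io_inj Y) h'
    refine ⟨h1'.trans h1.symm, Subtype.ext ?_⟩
    rw [h2']
    show cs.simple b * (v.1 * D) = (mv cs ho (io Y) (io_inj Y) (Sh.gen M po b) v).1 * D
    rw [h2, mul_assoc]

theorem cy_mv_trl (g : Sh M po) : ∀ v : {v : W // Mn cs (io Y) v},
    cy cs ho (io Y) (io_inj Y) g (trl cs hD v) = cy cs ho (io Y) (io_inj Y) g v ∧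
    mv cs ho (io Y) (io_inj Y) g (trl cs hD v) = trl cs hD (mv cs ho (io Y) (io_inj Y) g v) := by
  induction g using Sh.induction with
  | one => intro v; rw [cy_one, cy_one, mv_one, mv_one]; exact ⟨rfl, rfl⟩
  | gen b => exact cy_mv_gen_trl cs ho hD b
  | mul x y hx hy =>
    intro v
    rw [cy_mul, cy_mul, mv_mul, mv_mul, (hy v).1, (hy v).2]
    exact ⟨by rw [(hx _).1], (hx _).2⟩
  | inv x hx =>
    intro v
    have e1 : ∀ v, mv cs ho (io Y) (io_inj Y) x (mv cs ho (io Y) (io_inj Y) x⁻¹ v) = v := by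
      intro v
      rw [← mv_mul, mul_inv_cancel, mv_one]
    have e1' : ∀ v, mv cs ho (io Y) (io_inj Y) x⁻¹ (mv cs ho (io Y) (io_inj Y) x v) = v := by
      intro v
      rw [← mv_mul, inv_mul_cancel, mv_one]
    have e2 : ∀ v, cy cs ho (io Y) (io_inj Y) x⁻¹ v =
        (cy cs ho (io Y) (io_inj Y) x (mv cs ho (io Y) (io_inj Y) x⁻¹ v))⁻¹ := by
      intro v
      have h1 := cy_mul cs ho (io Y) (io_inj Y) x x⁻¹ v
      rw [mul_inv_cancel, cy_one] at h1
      exact eq_inv_of_mul_eq_one_right h1.symm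
    have h3 : mv cs ho (io Y) (io_inj Y) x⁻¹ (trl cs hD v) =
        trl cs hD (mv cs ho (io Y) (io_inj Y) x⁻¹ v) := by
      have h4 := (hx (mv cs ho (io Y) (io_inj Y) x⁻¹ v)).2
      rw [e1] at h4
      rw [← h4, e1']
    refine ⟨?_, h3⟩
    rw [e2, e2 v, h3, (hx _).1]

end tr

section rel

variable {X Y : Finset B}

/-- the pairs of elements which correspond to each other by conjugation with `e` -/
def He (e : W) : Subgroup (Sh (pull M (io X) (io_inj X)) (po ∘ io X) ×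
    Sh (pull M (io Y) (io_inj Y)) (po ∘ io Y)) :=
  Subgroup.closure {q | ∃ (x : X) (y : Y), cs.simple (io X x) * e = e * cs.simple (io Y y) ∧
    q = (Sh.gen _ _ x, Sh.gen _ _ y)}

include ho in
theorem He_inj (e : W) (a : Sh (pull M (io X) (io_inj X)) (po ∘ io X))
    (h : (a, (1 : Sh (pull M (io Y) (io_inj Y)) (po ∘ io Y))) ∈ He (X := X) (Y := Y) cs e) :
    a = 1 := by
  classical
  obtain ⟨Z, hZ⟩ : ∃ Z : Type, Z = {y : Y // ∃ x : X, cs.simple (io X x) * e =
    e * cs.simple (io Y y)} := ⟨_, rfl⟩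
  let κ : {y : Y // ∃ x : X, cs.simple (io X x) * e = e * cs.simple (io Y y)} → Y := Subtype.val
  have hκ : Function.Injective κ := Subtype.val_injective
  let ψ : {y : Y // ∃ x : X, cs.simple (io X x) * e = e * cs.simple (io Y y)} → X :=
    fun y => y.2.choose
  have hψ : ∀ y, cs.simple (io X (ψ y)) * e = e * cs.simple (io Y (κ y)) :=
    fun y => y.2.choose_spec
  have hconj : ∀ y y' (n : ℕ), (cs.simple (io X (ψ y)) * cs.simple (io X (ψ y'))) ^ n * e =
      e * (cs.simple (io Y (κ y)) * cs.simple (io Y (κ y'))) ^ n := by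
    intro y y' n
    induction n with
    | zero => simp
    | succ n ih =>
      rw [pow_succ, mul_assoc, mul_assoc, hψ y', ← mul_assoc (cs.simple (io X (ψ y))), hψ y,
        mul_assoc, ← mul_assoc, ih, mul_assoc, ← pow_succ]
  have hM : ∀ y y', M (io X (ψ y)) (io X (ψ y')) = M (io Y (κ y)) (io Y (κ y')) := by
    intro y y'
    by_cases hyy : y = y'
    · rw [hyy, M.diagonal, M.diagonal]
    have h1 : io Y (κ y) ≠ io Y (κ y') := fun h2 => hyy (hκ (io_inj Y h2))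
    have h2 : io X (ψ y) ≠ io X (ψ y') := by
      intro h3
      apply h1
      apply simple_injective cs
      have h4 := hψ y
      rw [h3, hψ y'] at h4
      exact (mul_left_cancel h4).symm
    apply Nat.dvd_antisymm
    · apply dvd_of_pow cs h2
      have h3 := hconj y y' (M (io Y (κ y)) (io Y (κ y')))
      rw [cs.simple_mul_simple_pow, mul_one] at h3
      exact mul_eq_right.1 h3
    · apply dvd_of_pow cs h1
      have h3 := hconj y y' (M (io X (ψ y)) (io X (ψ y')))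
      rw [cs.simple_mul_simple_pow, one_mul] at h3
      exact mul_eq_left.1 h3.symm
  let T : Sh (pull (pull M (io Y) (io_inj Y)) κ hκ) ((po ∘ io Y) ∘ κ) →*
      Sh (pull M (io X) (io_inj X)) (po ∘ io X) :=
    Sh.lift (fun y => Sh.gen _ _ (ψ y)) (fun y y' => by
      have h1 := Sh.rel (M := pull M (io X) (io_inj X)) (p := po ∘ io X) (ψ y) (ψ y')
      rw [pull_apply, hM] at h1
      exact h1) (fun y => by
      have h1 := Sh.pow (M := pull M (io X) (io_inj X)) (p := po ∘ io X) (ψ y)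
      have h2 : po (io X (ψ y)) = po (io Y (κ y)) := ho.conj cs (hψ y)
      show Sh.gen _ _ (ψ y) ^ (po (io Y (κ y))) = 1
      rw [← h2]
      exact h1)
  have hT : ∀ y, T (Sh.gen _ _ y) = Sh.gen _ _ (ψ y) := fun y => Sh.lift_gen _ _ _ _
  have hle : He (X := X) (Y := Y) cs e ≤
      (T.prod (inc (pull M (io Y) (io_inj Y)) (po ∘ io Y) κ hκ)).range := by
    unfold He
    rw [Subgroup.closure_le]
    rintro _ ⟨x, y, hxy, rfl⟩
    refine ⟨Sh.gen _ _ ⟨y, x, hxy⟩, ?_⟩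
    refine Prod.ext ?_ ?_
    · show T (Sh.gen _ _ ⟨y, x, hxy⟩) = Sh.gen _ _ x
      rw [hT]
      congr 1
      apply io_inj X
      apply simple_injective cs
      have h1 := hψ ⟨y, x, hxy⟩
      exact mul_right_cancel (h1.trans hxy.symm)
    · show inc (pull M (io Y) (io_inj Y)) (po ∘ io Y) κ hκ (Sh.gen _ _ ⟨y, x, hxy⟩) = Sh.gen _ _ y
      rw [inc_gen]
  obtain ⟨β, hβ⟩ := hle h
  have h1 : T β = a := congrArg Prod.fst hβ
  have h2 : inc (pull M (io Y) (io_inj Y)) (po ∘ io Y) κ hκ β = 1 := congrArg Prod.snd hβ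
  have h3 : β = 1 := by
    refine inc_injective (ho.pull (io Y) (io_inj Y)) κ hκ ?_
    rw [h2, map_one]
  rw [← h1, h3, map_one]

end rel

section walk

variable {X Y : Finset B} {u h : W} {K : ℤ}

/-- one step of the comparison -/
theorem step (e : W) (g s : Sh M po) (b : B) (hs : s = Sh.gen M po b ∨ s = (Sh.gen M po b)⁻¹)
    (v : {v : W // Mn cs (io X) v}) (v' : {v : W // Mn cs (io Y) v})
    (h1 : (cy cs ho (io X) (io_inj X) g v, cy cs ho (io Y) (io_inj Y) g v') ∈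
      He (X := X) (Y := Y) cs e)
    (h2 : (mv cs ho (io X) (io_inj X) g v).1⁻¹ * (mv cs ho (io Y) (io_inj Y) g v').1 = e)
    (h3 : (∃ x, cs.simple b * (mv cs ho (io X) (io_inj X) g v).1 =
        (mv cs ho (io X) (io_inj X) g v).1 * cs.simple (io X x)) ↔
      ∃ y, cs.simple b * (mv cs ho (io Y) (io_inj Y) g v').1 =
        (mv cs ho (io Y) (io_inj Y) g v').1 * cs.simple (io Y y)) :
    (cy cs ho (io X) (io_inj X) (s * g) v, cy cs ho (io Y) (io_inj Y) (s * g) v') ∈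
      He (X := X) (Y := Y) cs e ∧
    (mv cs ho (io X) (io_inj X) (s * g) v).1⁻¹ * (mv cs ho (io Y) (io_inj Y) (s * g) v').1 = e := by
  rw [cy_mul, cy_mul, mv_mul, mv_mul]
  obtain ⟨z, hz⟩ : ∃ z, z = mv cs ho (io X) (io_inj X) g v := ⟨_, rfl⟩
  obtain ⟨z', hz'⟩ : ∃ z', z' = mv cs ho (io Y) (io_inj Y) g v' := ⟨_, rfl⟩
  rw [← hz, ← hz'] at h2 h3 ⊢
  have hprod : ∀ (a : Sh (pull M (io X) (io_inj X)) (po ∘ io X))
      (a' : Sh (pull M (io Y) (io_inj Y)) (po ∘ io Y)), (a, a') ∈ He (X := X) (Y := Y) cs e →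
      (a * cy cs ho (io X) (io_inj X) g v, a' * cy cs ho (io Y) (io_inj Y) g v') ∈
        He (X := X) (Y := Y) cs e := fun a a' ha => mul_mem ha h1
  by_cases hc : ∃ x, cs.simple b * z.1 = z.1 * cs.simple (io X x)
  · obtain ⟨y, hy⟩ := h3.1 hc
    obtain ⟨x, hx⟩ := hc
    have hxy : cs.simple (io X x) * e = e * cs.simple (io Y y) := by
      rw [← h2]
      calc cs.simple (io X x) * (z.1⁻¹ * z'.1) = z.1⁻¹ * (z.1 * cs.simple (io X x)) * z.1⁻¹ * z'.1 := by
            group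
        _ = z.1⁻¹ * (cs.simple b * z'.1) := by rw [← hx]; group
        _ = z.1⁻¹ * z'.1 * cs.simple (io Y y) := by rw [hy]; group
    have hmem : ((Sh.gen _ _ x, Sh.gen _ _ y) : Sh (pull M (io X) (io_inj X)) (po ∘ io X) ×
        Sh (pull M (io Y) (io_inj Y)) (po ∘ io Y)) ∈ He (X := X) (Y := Y) cs e :=
      Subgroup.subset_closure ⟨x, y, hxy, rfl⟩
    rcases hs with rfl | rfl
    · obtain ⟨e1, e2⟩ := gen_pos cs ho (io X) (io_inj X) hx
      obtain ⟨e1', e2'⟩ := gen_pos cs ho (io Y) (io_inj Y) hy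
      rw [e1, e2, e1', e2']
      exact ⟨hprod _ _ hmem, h2⟩
    · obtain ⟨e1, e2⟩ := inv_pos cs ho (io X) (io_inj X) hx
      obtain ⟨e1', e2'⟩ := inv_pos cs ho (io Y) (io_inj Y) hy
      rw [e1, e2, e1', e2']
      exact ⟨hprod _ _ (inv_mem hmem), h2⟩
  · have hc' := fun h4 => hc (h3.2 h4)
    have hh : (cs.simple b * z.1)⁻¹ * (cs.simple b * z'.1) = e := by
      rw [← h2]
      group
    rcases hs with rfl | rfl
    · obtain ⟨e1, e2⟩ := gen_neg cs ho (io X) (io_inj X) hc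
      obtain ⟨e1', e2'⟩ := gen_neg cs ho (io Y) (io_inj Y) hc'
      rw [e1, e2, e1', e2', one_mul, one_mul]
      exact ⟨h1, hh⟩
    · obtain ⟨e1, e2⟩ := inv_neg cs ho (io X) (io_inj X) hc
      obtain ⟨e1', e2'⟩ := inv_neg cs ho (io Y) (io_inj Y) hc'
      rw [e1, e2, e1', e2', one_mul, one_mul]
      exact ⟨h1, hh⟩

/-- the comparison -/
theorem walk (hu : ND (geo cs) u) (hK : K ≠ 0) (hh : Mn cs (io Y) h)
    (r1 : ∀ (g : W) (i : B), (∀ n : ℤ, Vs X (geo cs (u ^ n) (geo cs g (ee i)))) →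
      Vs Y (geo cs h⁻¹ (geo cs g (ee i))))
    (r2 : ∀ z : B → ℝ, Vs Y (geo cs h⁻¹ z) → ∀ n : ℤ, Vs X (geo cs (u ^ n) z))
    (v : ℤ → {v : W // Mn cs (io X) v})
    (hv : ∀ n, ∃ a : Sh (pull M (io X) (io_inj X)) (po ∘ io X),
      u ^ (K * n) = (v n).1 * bar cs ho (io X) (io_inj X) a) (g : Sh M po) :
    ∃ S : Set ℤ, S.Finite ∧ ∀ n ∉ S,
      (cy cs ho (io X) (io_inj X) g (v n), cy cs ho (io Y) (io_inj Y) g ⟨h, hh⟩) ∈
        He (X := X) (Y := Y) cs ((v n).1⁻¹ * h) ∧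
      (mv cs ho (io X) (io_inj X) g (v n)).1⁻¹ * (mv cs ho (io Y) (io_inj Y) g ⟨h, hh⟩).1 =
        (v n).1⁻¹ * h := by
  have hvV : ∀ (n : ℤ) (z : B → ℝ), Vs X (geo cs (v n).1⁻¹ z) ↔
      Vs X (geo cs (u ^ (-(K * n))) z) := by
    intro n z
    obtain ⟨a, ha⟩ := hv n
    have h1 : (v n).1⁻¹ = bar cs ho (io X) (io_inj X) a * u ^ (-(K * n)) := by
      rw [zpow_neg, ha]
      group
    rw [h1, geo_mul_apply, Vs_bar]
  -- the exceptional set of a letter
  have hlet : ∀ (g : Sh M po) (b : B), ∃ S : Set ℤ, S.Finite ∧ ∀ n ∉ S,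
      ((∃ x, cs.simple b * (mv cs ho (io X) (io_inj X) g (v n)).1 =
        (mv cs ho (io X) (io_inj X) g (v n)).1 * cs.simple (io X x)) ↔
      ∃ y, cs.simple b * (mv cs ho (io Y) (io_inj Y) g ⟨h, hh⟩).1 =
        (mv cs ho (io Y) (io_inj Y) g ⟨h, hh⟩).1 * cs.simple (io Y y)) := by
    intro g b
    obtain ⟨γ, hγ⟩ : ∃ γ : B → ℝ, γ = geo cs (prj cs ho g)⁻¹ (ee b) := ⟨_, rfl⟩
    have hXc : ∀ n, (∃ x, cs.simple b * (mv cs ho (io X) (io_inj X) g (v n)).1 =
        (mv cs ho (io X) (io_inj X) g (v n)).1 * cs.simple (io X x)) ↔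
        Vs X (geo cs (u ^ (-(K * n))) γ) := by
      intro n
      rw [out_iff' cs ho (io X) (io_inj X), ← hvV, hγ]
      constructor
      · intro h1 d hd
        exact h1 d (io_ne hd)
      · intro h1 d hd
        exact h1 d fun h2 => hd ⟨d, h2⟩ rfl
    have hYc : (∃ y, cs.simple b * (mv cs ho (io Y) (io_inj Y) g ⟨h, hh⟩).1 =
        (mv cs ho (io Y) (io_inj Y) g ⟨h, hh⟩).1 * cs.simple (io Y y)) ↔
        ∀ n : ℤ, Vs X (geo cs (u ^ n) γ) := by
      rw [out_iff' cs ho (io Y) (io_inj Y)]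
      constructor
      · intro h1
        apply r2
        intro d hd
        rw [hγ]
        exact h1 d (io_ne hd)
      · intro h1 d hd
        rw [hγ] at h1
        exact r1 _ _ h1 d fun h2 => hd ⟨d, h2⟩ rfl
    by_cases hall : ∀ n : ℤ, Vs X (geo cs (u ^ n) γ)
    · refine ⟨∅, Set.finite_empty, fun n _ => ?_⟩
      rw [hXc, hYc]
      exact ⟨fun _ => hall, fun _ => hall _⟩
    · have hne : ∃ d, d ∉ X ∧ ∃ n : ℤ, geo cs (u ^ n) γ d ≠ 0 := by
        unfold Vs at hall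
        push Not at hall
        obtain ⟨n, d, hd, h1⟩ := hall
        exact ⟨d, hd, n, h1⟩
      obtain ⟨d, hd, n0, hn0⟩ := hne
      have hfin : {n : ℤ | geo cs (u ^ n) γ d = 0}.Finite := by
        rcases hu (LinearMap.proj d) γ with h1 | h1
        · exact absurd (h1 n0) hn0
        · exact h1
      refine ⟨(fun n : ℤ => -(K * n)) ⁻¹' {n : ℤ | geo cs (u ^ n) γ d = 0},
        hfin.preimage (fun a _ b _ h1 => mul_left_cancel₀ hK (neg_injective h1)), fun n hn => ?_⟩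
      rw [hXc, hYc]
      constructor
      · intro h1
        exact absurd (h1 d hd) hn
      · intro h1
        exact absurd h1 hall
  have hg : g ∈ Subgroup.closure (Set.range (Sh.gen M po)) := by
    rw [Sh.closure_range_gen]
    trivial
  induction hg using Subgroup.closure_induction_left with
  | one =>
    refine ⟨∅, Set.finite_empty, fun n _ => ?_⟩
    rw [cy_one, cy_one, mv_one, mv_one]
    exact ⟨one_mem _, rfl⟩
  | mul_left s hs y _ ih =>
    obtain ⟨b, rfl⟩ := hs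
    obtain ⟨S, hS, hS'⟩ := ih
    obtain ⟨S1, hS1, hS1'⟩ := hlet y b
    refine ⟨S ∪ S1, hS.union hS1, fun n hn => ?_⟩
    rw [Set.mem_union, not_or] at hn
    exact step cs ho _ y _ b (Or.inl rfl) _ _ (hS' n hn.1).1 (hS' n hn.1).2 (hS1' n hn.2)
  | inv_mul_cancel s hs y _ ih =>
    obtain ⟨b, rfl⟩ := hs
    obtain ⟨S, hS, hS'⟩ := ih
    obtain ⟨S1, hS1, hS1'⟩ := hlet y b
    refine ⟨S ∪ S1, hS.union hS1, fun n hn => ?_⟩
    rw [Set.mem_union, not_or] at hn
    exact step cs ho _ y _ b (Or.inr rfl) _ _ (hS' n hn.1).1 (hS' n hn.1).2 (hS1' n hn.2)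

end walk

end Run7.h952.AR
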